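import Pool.Agent.Helper540.HS.Main

open MeasureTheory ProbabilityTheory Set Filter
open scoped ENNReal NNReal Topology

namespace HS

theorem theta_continuous (κ a : ℝ) (N : ℕ) (ha : 0 < a) : Continuous (theta κ N a) := by
  obtain ⟨hcd, h0, h1, -⟩ := uu_props κ N
  have e : theta κ N a = fun s => uu κ N (max 0 (min 1 (a * (s - a)))) := by
    ext s
    unfold theta
    split_ifs with h
    · obtain ⟨h2, h3⟩ := h
      have h4 : 0 ≤ a * (s - a) := by nlinarith
      have h5 : a * (s - a) ≤ 1 := by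
        have : s - a ≤ 1 / a := by linarith
        calc a * (s - a) ≤ a * (1 / a) := by gcongr
          _ = 1 := by field_simp
      rw [min_eq_right h5, max_eq_right h4]
    · by_cases h2 : a ≤ s
      · have h3 : a + 1 / a < s := by
          by_contra h4
          exact h ⟨h2, not_lt.1 h4⟩
        have h5 : 1 ≤ a * (s - a) := by
          have : 1 / a ≤ s - a := by linarith
          calc 1 = a * (1 / a) := by field_simp
            _ ≤ a * (s - a) := by gcongr
        rw [min_eq_left h5, max_eq_right (by norm_num), h1]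
      · have h5 : a * (s - a) ≤ 0 := by nlinarith
        rw [min_eq_right (by linarith), max_eq_left h5, h0]
  rw [e]
  have := hcd.continuous
  fun_prop

/-- the one-dimensional data of the counterexample -/
theorem data (p : ℝ) (hp1 : 1 < p) (hp2 : p < 2) (c : ℝ≥0) :
    ∃ (d n : ℕ) (Q : Polynomial ℝ) (θ : ℝ → ℝ) (C2 : ℝ), 1 ≤ d ∧ 1 ≤ n ∧ Q.natDegree ≤ d ∧
      (∀ s, Q.eval (-s) = - Q.eval s) ∧ Continuous θ ∧ (∀ s, |θ s| ≤ 1) ∧ 1 ≤ C2 ∧
      (n : ℝ≥0∞) * ∫⁻ s, ENNReal.ofReal (phi p (Q.eval s)) ∂(gaussianReal 0 1)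
        ≤ ENNReal.ofReal (C2 - 1) ∧
      (c : ℝ) * d * C2 < n * |∫ s, (ou1 Q).eval s * θ s ∂(gaussianReal 0 1)| *
          (1 - ∫ s, θ s ^ 2 ∂(gaussianReal 0 1)) ^ (n - 1) := by
  -- parameters
  set κ : ℝ := 1 / 4 + 1 / (2 * p) with hκ
  set b : ℝ := (2 - p) / 16 with hb
  have hb0 : 0 < b := by rw [hb]; linarith
  have hp0 : 0 < p := by linarith
  have hip : 1 / (2 * p) - 1 / 4 = (2 - p) / (4 * p) := by field_simp; ring
  have hip2 : (2 - p) / 8 ≤ (2 - p) / (4 * p) := by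
    apply div_le_div_of_nonneg_left (by linarith) (by positivity) (by linarith)
  have hκ1 : 1 / 2 < κ := by
    have : 0 < (2 - p) / 8 := by linarith
    rw [hκ]; linarith
  have hκ2 : κ < 1 := by
    have : 1 / (2 * p) < 1 / 2 := by
      apply one_div_lt_one_div_of_lt (by norm_num) (by linarith)
    rw [hκ]; linarith
  have hc1 : b ≤ κ - b - 1 / 2 := by rw [hκ, hb]; linarith
  have hpκ : p / 2 * κ = p / 8 + 1 / 4 := by rw [hκ]; field_simp; ring
  have hc2 : b ≤ 1 / 2 - p / 2 * (κ + b) := by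
    have : p / 2 * (κ + b) = p / 8 + 1 / 4 + p / 2 * b := by rw [mul_add, hpκ]
    rw [this]
    have : p / 2 * b ≤ b := by nlinarith
    have : 2 * b = (2 - p) / 8 := by rw [hb]; ring
    linarith
  set C2 : ℝ := 1 + 16 / b with hC2
  have hC2pos : 1 ≤ C2 := by rw [hC2]; have : 0 < 16 / b := by positivity
                             linarith
  -- choice of N
  obtain ⟨N, hN⟩ := exists_nat_gt (1 + 1000 * (c : ℝ) * C2)
  have hc0 : (0:ℝ) ≤ c := c.2
  have hN1r : (1:ℝ) < N := by nlinarith [mul_nonneg hc0 (by linarith : (0:ℝ) ≤ C2)]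
  have hN1 : 1 ≤ N := by exact_mod_cast hN1r.le
  obtain ⟨ε, hε, hlow⟩ := low1d κ N (by linarith) hκ2.le hN1
  obtain ⟨H, hH⟩ := approx_cos b (min 1 (ε / Real.exp b)) (2 * Real.pi * N) hb0 (by positivity)
  have hH1 : ∀ y ∈ Icc (0:ℝ) 1, |H.eval y - Real.cos (2 * Real.pi * N * y)| ≤ ε := by
    intro y hy
    refine (hH y).trans ?_
    have : |y| ≤ 1 := by rw [abs_of_nonneg hy.1]; exact hy.2
    calc min 1 (ε / Real.exp b) * Real.exp (b * |y|) ≤ (ε / Real.exp b) * Real.exp (b * 1) := by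
          gcongr
          exact min_le_right _ _
      _ = ε := by rw [mul_one]; field_simp
  have hH2 : ∀ y : ℝ, |H.eval y| ≤ 2 * Real.exp (b * |y|) := by
    intro y
    have h3 := hH y
    have h4 : |Real.cos (2 * Real.pi * N * y)| ≤ 1 := Real.abs_cos_le_one _
    have h5 : (1:ℝ) ≤ Real.exp (b * |y|) := Real.one_le_exp (by positivity)
    have h6 : min 1 (ε / Real.exp b) * Real.exp (b * |y|) ≤ 1 * Real.exp (b * |y|) := by
      gcongr; exact min_le_left _ _
    calc |H.eval y| = |(H.eval y - Real.cos (2 * Real.pi * N * y)) +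
          Real.cos (2 * Real.pi * N * y)| := by ring_nf
      _ ≤ |H.eval y - Real.cos (2 * Real.pi * N * y)| + |Real.cos (2 * Real.pi * N * y)| :=
          abs_add_le _ _
      _ ≤ 2 * Real.exp (b * |y|) := by linarith
  set A : ℕ → ℝ := fun k => √((2 * k + 1) / κ) with hA
  have hAinf : Tendsto A atTop atTop := by
    rw [hA]
    apply Real.tendsto_sqrt_atTop.comp
    apply Tendsto.atTop_div_const (by linarith)
    apply tendsto_atTop_add_const_right
    exact Tendsto.const_mul_atTop (by norm_num) tendsto_natCast_atTop_atTop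
  have hev := hlow H hH1 A (fun k => rfl)
  obtain ⟨k, hk1, hk2, hk3⟩ := (hev.and ((hAinf.eventually_ge_atTop 2).and
    (eventually_ge_atTop H.natDegree))).exists
  set a := A k with ha
  have ha0 : 0 < a := by linarith
  have ha2 : a ^ 2 = (2 * k + 1) / κ := by
    rw [ha, hA]; exact Real.sq_sqrt (by positivity)
  have hm : ((2 * k + 1 : ℕ) : ℝ) = κ * a ^ 2 := by
    rw [ha2]; push_cast; field_simp
  set E := a * Real.exp (a ^ 2 / 2) with hE
  have hE2 : 2 ≤ E := by
    have : (1:ℝ) ≤ Real.exp (a ^ 2 / 2) := Real.one_le_exp (by positivity)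
    rw [hE]; nlinarith
  set n := ⌊E⌋₊ with hn
  have hn1 : (n:ℝ) ≤ E := Nat.floor_le (by linarith)
  have hn2 : E / 2 ≤ n := by
    have := Nat.lt_floor_add_one E
    rw [← hn] at this
    linarith
  have hn0 : 1 ≤ n := by
    rw [hn]; apply Nat.le_floor; push_cast; linarith
  set Q := QQ a (2 * k + 1) H with hQ
  obtain ⟨hQe, hQd, hQodd⟩ := QQ_props a (2 * k + 1) H
  have hQodd' := hQodd ⟨k, by ring⟩
  obtain ⟨hth1, hth2, hth3, hth4⟩ := window κ a N n hκ1.le hκ2.le ha0 hn1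
  refine ⟨2 * (2 * k + 1), n, Q, theta κ N a, C2, by omega, hn0, hQd.trans (by omega), hQodd',
    theta_continuous κ a N ha0, hth2, hC2pos, ?_, ?_⟩
  · have : C2 - 1 = 16 / b := by rw [hC2]; ring
    rw [this]
    exact upper1d p κ b b a (2 * k + 1) n H hp1.le hp2.le hb0 hb0 hc1 hc2 ha0 hm hH2 hn1
  · have h7 := hk1 n hn2
    have h8 : a ^ 2 * (2 * Real.pi * N) ^ 2 / 384 ≤
        n * |∫ s, (ou1 Q).eval s * theta κ N a s ∂(gaussianReal 0 1)| *
          (1 - ∫ s, theta κ N a s ^ 2 ∂(gaussianReal 0 1)) ^ (n - 1) := by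
      calc a ^ 2 * (2 * Real.pi * N) ^ 2 / 384
          = (a ^ 2 * (2 * Real.pi * N) ^ 2 / 192) * (1 / 2) := by ring
        _ ≤ _ := by
          apply mul_le_mul h7 hth4 (by norm_num) (by positivity)
    refine lt_of_lt_of_le ?_ h8
    have e10 : ((2 * (2 * k + 1) : ℕ) : ℝ) = 2 * (κ * a ^ 2) := by
      rw [← hm]; push_cast; ring
    rw [e10]
    have e11 : 2 * (κ * a ^ 2) ≤ 2 * a ^ 2 := by nlinarith [sq_nonneg a]
    have e12 : (3:ℝ) < Real.pi := Real.pi_gt_three
    have e13 : (36:ℝ) * N ≤ (2 * Real.pi * N) ^ 2 := by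
      have : (1:ℝ) ≤ N := hN1r.le
      have h14 : (6:ℝ) * N ≤ 2 * Real.pi * N := by nlinarith
      calc (36:ℝ) * N ≤ (6 * N) ^ 2 := by nlinarith
        _ ≤ (2 * Real.pi * N) ^ 2 := by gcongr
    have hcC : 0 ≤ (c:ℝ) * C2 := by positivity
    have ha2p : 0 < a ^ 2 := by positivity
    calc (c:ℝ) * (2 * (κ * a ^ 2)) * C2 ≤ (c:ℝ) * (2 * a ^ 2) * C2 := by gcongr
      _ = a ^ 2 * (2 * ((c:ℝ) * C2)) := by ring
      _ < a ^ 2 * ((36 * N) / 384) := by
          apply mul_lt_mul_of_pos_left _ ha2p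
          nlinarith
      _ ≤ a ^ 2 * ((2 * Real.pi * N) ^ 2 / 384) := by gcongr
      _ = _ := by ring

end HS
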