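import Mathlib

open MeasureTheory ProbabilityTheory Set Filter
open scoped ENNReal NNReal Topology

namespace HS

/-- The standard Gaussian measure on `ℝ^n`. -/
noncomputable def gam (n : ℕ) : Measure (Fin n → ℝ) := Measure.pi (fun _ => gaussianReal 0 1)

/-- The Ornstein-Uhlenbeck operator `N f = Laplacian f - x . grad f` on polynomials in `n` variables. -/
noncomputable def ouN {n : ℕ} (f : MvPolynomial (Fin n) ℝ) : MvPolynomial (Fin n) ℝ :=
  ∑ i, (MvPolynomial.pderiv i (MvPolynomial.pderiv i f) -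
    MvPolynomial.X i * MvPolynomial.pderiv i f)

/-- The norm of `L_p(gamma_n)`. -/
noncomputable def gnorm {n : ℕ} (p : ℝ) (f : MvPolynomial (Fin n) ℝ) : ℝ≥0∞ :=
  eLpNorm (fun x : Fin n → ℝ => MvPolynomial.eval x f) (ENNReal.ofReal p) (gam n)

/-- auxiliary function `(1+t^2)^(p/2) - 1` -/
noncomputable def phi (p t : ℝ) : ℝ := (1 + t ^ 2) ^ (p / 2) - 1

/-- one-dimensional Ornstein-Uhlenbeck operator on polynomials -/
noncomputable def ou1 (Q : Polynomial ℝ) : Polynomial ℝ :=
  Polynomial.derivative (Polynomial.derivative Q) - Polynomial.X * Polynomial.derivative Q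

/-- the polynomial `(s/a)^m * H((s^2-a^2)/2)` -/
noncomputable def QQ (a : ℝ) (m : ℕ) (H : Polynomial ℝ) : Polynomial ℝ :=
  (Polynomial.C a⁻¹ * Polynomial.X) ^ m *
    H.comp (Polynomial.C (1 / 2) * (Polynomial.X ^ 2 - Polynomial.C (a ^ 2)))

/-- profile of the test function -/
noncomputable def uu (κ : ℝ) (N : ℕ) (t : ℝ) : ℝ :=
  Real.sin (Real.pi * t) ^ 2 / 2 * Real.exp ((1 - κ) * t) * Real.cos (2 * Real.pi * N * t)

/-- test function, supported in `[a, a + 1/a]` -/
noncomputable def theta (κ : ℝ) (N : ℕ) (a s : ℝ) : ℝ :=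
  if a ≤ s ∧ s ≤ a + 1 / a then uu κ N (a * (s - a)) else 0

end HS
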