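import Pool.Agent.Helper540.HS.Defs

open MeasureTheory ProbabilityTheory Set Filter
open scoped ENNReal NNReal Topology

namespace HS



theorem QQ_props (a : ℝ) (m : ℕ) (H : Polynomial ℝ) :
    (∀ s, (QQ a m H).eval s = (s / a) ^ m * H.eval ((s ^ 2 - a ^ 2) / 2)) ∧
    (QQ a m H).natDegree ≤ m + 2 * H.natDegree ∧
    (Odd m → ∀ s, (QQ a m H).eval (-s) = - (QQ a m H).eval s) := by
  have h1 : ∀ s, (QQ a m H).eval s = (s / a) ^ m * H.eval ((s ^ 2 - a ^ 2) / 2) := by
    intro s
    unfold QQ
    simp only [Polynomial.eval_mul, Polynomial.eval_pow, Polynomial.eval_C, Polynomial.eval_X,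
      Polynomial.eval_comp, Polynomial.eval_sub]
    have e1 : a⁻¹ * s = s / a := by rw [div_eq_mul_inv, mul_comm]
    have e2 : 1 / 2 * (s ^ 2 - a ^ 2) = (s ^ 2 - a ^ 2) / 2 := by ring
    rw [e1, e2]
  refine ⟨h1, ?_, ?_⟩
  · unfold QQ
    refine Polynomial.natDegree_mul_le.trans ?_
    refine add_le_add ?_ ?_
    · refine Polynomial.natDegree_pow_le.trans ?_
      have : (Polynomial.C a⁻¹ * Polynomial.X : Polynomial ℝ).natDegree ≤ 1 := by
        refine (Polynomial.natDegree_C_mul_le _ _).trans ?_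
        simp
      calc m * _ ≤ m * 1 := Nat.mul_le_mul_left _ this
        _ = m := mul_one m
    · refine Polynomial.natDegree_comp_le.trans ?_
      have : (Polynomial.C (1 / 2) * (Polynomial.X ^ 2 - Polynomial.C (a ^ 2)) :
          Polynomial ℝ).natDegree ≤ 2 := by
        refine (Polynomial.natDegree_C_mul_le _ _).trans ?_
        refine (Polynomial.natDegree_sub_le _ _).trans ?_
        simp
      calc H.natDegree * _ ≤ H.natDegree * 2 := Nat.mul_le_mul_left _ this
        _ = 2 * H.natDegree := mul_comm _ _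
  · intro hm s
    rw [h1, h1, neg_div, hm.neg_pow, neg_sq, neg_mul]

end HS
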