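import Pool.Agent.Helper540.HS.Defs

open MeasureTheory ProbabilityTheory Set Filter
open scoped ENNReal NNReal Topology

namespace HS



/-- `v` can be approximated by polynomials with weight `exp (-d |y|)` -/
def ac_G (d : ℝ) (v : ℝ → ℝ) : Prop :=
  ∀ e : ℝ, 0 < e → ∃ P : Polynomial ℝ, ∀ y : ℝ, |P.eval y - v y| ≤ e * Real.exp (d * |y|)

theorem ac_poly (P : Polynomial ℝ) (η : ℝ) (hη : 0 < η) :
    ∃ C : ℝ, 0 < C ∧ ∀ y : ℝ, |P.eval y| ≤ C * Real.exp (η * |y|) := by
  induction P using Polynomial.induction_on' with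
  | add p q hp hq =>
    obtain ⟨C1, hC1, h1⟩ := hp
    obtain ⟨C2, hC2, h2⟩ := hq
    refine ⟨C1 + C2, by positivity, fun y => ?_⟩
    rw [Polynomial.eval_add, add_mul]
    exact (abs_add_le _ _).trans (add_le_add (h1 y) (h2 y))
  | monomial n a =>
    refine ⟨|a| * (n.factorial / η ^ n) + 1, by positivity, fun y => ?_⟩
    have h1 : (η * |y|) ^ n / n.factorial ≤ Real.exp (η * |y|) :=
      Real.pow_div_factorial_le_exp (η * |y|) (by positivity) n
    have h2 : |y| ^ n ≤ (n.factorial / η ^ n) * Real.exp (η * |y|) := by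
      rw [mul_pow, div_le_iff₀ (by positivity)] at h1
      rw [div_mul_eq_mul_div, le_div_iff₀ (by positivity)]
      linarith
    rw [Polynomial.eval_monomial, abs_mul, abs_pow, add_mul, one_mul, mul_assoc]
    have h3 := mul_le_mul_of_nonneg_left h2 (abs_nonneg a)
    have h4 := Real.exp_pos (η * |y|)
    linarith

theorem ac_add {d : ℝ} {u v : ℝ → ℝ} (hu : ac_G d u) (hv : ac_G d v) :
    ac_G d (fun y => u y + v y) := by
  intro e he
  obtain ⟨P, hP⟩ := hu (e / 2) (by positivity)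
  obtain ⟨Q, hQ⟩ := hv (e / 2) (by positivity)
  refine ⟨P + Q, fun y => ?_⟩
  rw [Polynomial.eval_add]
  have h1 : P.eval y + Q.eval y - (u y + v y) = (P.eval y - u y) + (Q.eval y - v y) := by ring
  rw [h1]
  have := (abs_add_le (P.eval y - u y) (Q.eval y - v y)).trans (add_le_add (hP y) (hQ y))
  linarith

theorem ac_sub {d : ℝ} {u v : ℝ → ℝ} (hu : ac_G d u) (hv : ac_G d v) :
    ac_G d (fun y => u y - v y) := by
  intro e he
  obtain ⟨P, hP⟩ := hu (e / 2) (by positivity)
  obtain ⟨Q, hQ⟩ := hv (e / 2) (by positivity)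
  refine ⟨P - Q, fun y => ?_⟩
  rw [Polynomial.eval_sub]
  have h1 : P.eval y - Q.eval y - (u y - v y) = (P.eval y - u y) - (Q.eval y - v y) := by ring
  rw [h1]
  have := (abs_sub (P.eval y - u y) (Q.eval y - v y)).trans (add_le_add (hP y) (hQ y))
  linarith

theorem ac_mul {d : ℝ} (hd : 0 < d) {u v : ℝ → ℝ} (hu : ac_G (d / 2) u) (hv : ac_G d v)
    (hu1 : ∀ y, |u y| ≤ 1) : ac_G d (fun y => u y * v y) := by
  intro e he
  obtain ⟨P, hP⟩ := hv (e / 2) (by positivity)
  obtain ⟨C, hC, hPC⟩ := ac_poly P (d / 2) (by positivity)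
  obtain ⟨R, hR⟩ := hu (e / (2 * C)) (by positivity)
  refine ⟨R * P, fun y => ?_⟩
  rw [Polynomial.eval_mul]
  have h1 : R.eval y * P.eval y - u y * v y = u y * (P.eval y - v y) + (R.eval y - u y) * P.eval y := by
    ring
  rw [h1]
  have h2 : |u y * (P.eval y - v y)| ≤ e / 2 * Real.exp (d * |y|) := by
    rw [abs_mul]
    calc |u y| * |P.eval y - v y| ≤ 1 * |P.eval y - v y| :=
          mul_le_mul_of_nonneg_right (hu1 y) (abs_nonneg _)
      _ ≤ _ := by rw [one_mul]; exact hP y
  have h3 : |(R.eval y - u y) * P.eval y| ≤ e / 2 * Real.exp (d * |y|) := by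
    rw [abs_mul]
    calc |R.eval y - u y| * |P.eval y| ≤
          (e / (2 * C) * Real.exp (d / 2 * |y|)) * (C * Real.exp (d / 2 * |y|)) :=
          mul_le_mul (hR y) (hPC y) (abs_nonneg _) (by positivity)
      _ = e / 2 * (Real.exp (d / 2 * |y|) * Real.exp (d / 2 * |y|)) := by
          field_simp
      _ = e / 2 * Real.exp (d * |y|) := by
          rw [← Real.exp_add]
          congr 2
          ring
  have := (abs_add_le (u y * (P.eval y - v y)) ((R.eval y - u y) * P.eval y)).trans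
    (add_le_add h2 h3)
  linarith

theorem ac_tail (n : ℕ) (x : ℝ) (hx : 0 ≤ x) :
    Real.exp x - ∑ m ∈ Finset.range n, x ^ m / m.factorial ≤ (1 / 2) ^ n * Real.exp (2 * x) := by
  have hs : ∀ z : ℝ, Summable (fun m : ℕ => z ^ m / (m.factorial : ℝ)) :=
    fun z => Real.summable_pow_div_factorial z
  have he : ∀ z : ℝ, Real.exp z = ∑' m : ℕ, z ^ m / (m.factorial : ℝ) := by
    intro z
    rw [Real.exp_eq_exp_ℝ, NormedSpace.exp_eq_tsum_div]
  have h1 : Real.exp x - ∑ m ∈ Finset.range n, x ^ m / m.factorial =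
      ∑' i : ℕ, x ^ (i + n) / ((i + n).factorial : ℝ) := by
    rw [he x, ← (hs x).sum_add_tsum_nat_add n]
    ring
  have h2 : ∑' i : ℕ, (2 * x) ^ (i + n) / ((i + n).factorial : ℝ) ≤ Real.exp (2 * x) := by
    rw [he (2 * x), ← (hs (2 * x)).sum_add_tsum_nat_add n]
    have : 0 ≤ ∑ i ∈ Finset.range n, (2 * x) ^ i / (i.factorial : ℝ) :=
      Finset.sum_nonneg fun i _ => by positivity
    linarith
  have hs2 : Summable (fun i : ℕ => (2 * x) ^ (i + n) / ((i + n).factorial : ℝ)) :=
    (summable_nat_add_iff n).mpr (hs (2 * x))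
  have hs1 : Summable (fun i : ℕ => x ^ (i + n) / ((i + n).factorial : ℝ)) :=
    (summable_nat_add_iff n).mpr (hs x)
  rw [h1]
  calc ∑' i : ℕ, x ^ (i + n) / ((i + n).factorial : ℝ)
      ≤ ∑' i : ℕ, (1 / 2) ^ n * ((2 * x) ^ (i + n) / ((i + n).factorial : ℝ)) := by
        apply Summable.tsum_le_tsum _ hs1 (hs2.mul_left _)
        intro i
        rw [← mul_div_assoc]
        apply div_le_div_of_nonneg_right _ (by positivity)
        have h3 : (1 / 2 : ℝ) ^ n * (2 * x) ^ (i + n) = 2 ^ i * x ^ (i + n) := by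
          rw [mul_pow, pow_add 2 i n, one_div, inv_pow]
          field_simp
        rw [h3]
        have h4 : (1:ℝ) ≤ 2 ^ i := one_le_pow₀ (by norm_num)
        nlinarith [pow_nonneg hx (i + n)]
    _ = (1 / 2) ^ n * ∑' i : ℕ, ((2 * x) ^ (i + n) / ((i + n).factorial : ℝ)) := tsum_mul_left
    _ ≤ _ := mul_le_mul_of_nonneg_left h2 (by positivity)

theorem ac_taylor (n : ℕ) (w y : ℝ) :
    ‖Complex.exp (((w * y : ℝ) : ℂ) * Complex.I) -
      ∑ m ∈ Finset.range n, (((w * y : ℝ) : ℂ) * Complex.I) ^ m / m.factorial‖ ≤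
      (1 / 2) ^ n * Real.exp (2 * (|w| * |y|)) := by
  refine (Complex.norm_exp_sub_sum_le_exp_norm_sub_sum _ n).trans ?_
  have h : ‖((w * y : ℝ) : ℂ) * Complex.I‖ = |w| * |y| := by
    rw [norm_mul, Complex.norm_I, mul_one, Complex.norm_real, Real.norm_eq_abs, abs_mul]
  rw [h]
  exact ac_tail n _ (by positivity)

theorem ac_base {d w : ℝ} (hw : |w| ≤ d / 4) :
    ac_G (d / 2) (fun y => Real.cos (w * y)) ∧ ac_G (d / 2) (fun y => Real.sin (w * y)) := by
  have key : ∀ e : ℝ, 0 < e → ∃ n : ℕ, ∀ y : ℝ,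
      ‖Complex.exp (((w * y : ℝ) : ℂ) * Complex.I) -
      ∑ m ∈ Finset.range n, (((w * y : ℝ) : ℂ) * Complex.I) ^ m / m.factorial‖ ≤
      e * Real.exp (d / 2 * |y|) := by
    intro e he
    obtain ⟨n, hn⟩ := exists_pow_lt_of_lt_one he (by norm_num : (1 / 2 : ℝ) < 1)
    refine ⟨n, fun y => (ac_taylor n w y).trans ?_⟩
    apply mul_le_mul hn.le _ (Real.exp_pos _).le he.le
    apply Real.exp_le_exp.mpr
    nlinarith [abs_nonneg y]
  have hterm : ∀ (y : ℝ) (m : ℕ), (((w * y : ℝ) : ℂ) * Complex.I) ^ m / m.factorial =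
      ((((w * y) ^ m / m.factorial : ℝ)) : ℂ) * Complex.I ^ m := by
    intro y m
    push_cast
    ring
  constructor
  · intro e he
    obtain ⟨n, hn⟩ := key e he
    refine ⟨∑ m ∈ Finset.range n, Polynomial.monomial m (w ^ m / m.factorial * (Complex.I ^ m).re),
      fun y => ?_⟩
    have h1 := (Complex.abs_re_le_norm _).trans (hn y)
    rw [Complex.sub_re, Complex.re_sum, Complex.exp_ofReal_mul_I_re] at h1
    rw [Polynomial.eval_finset_sum, abs_sub_comm]
    have h2 : ∀ m ∈ Finset.range n, Polynomial.eval y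
        (Polynomial.monomial m (w ^ m / m.factorial * (Complex.I ^ m).re)) =
        ((((w * y : ℝ) : ℂ) * Complex.I) ^ m / m.factorial).re := by
      intro m _
      rw [hterm, Complex.re_ofReal_mul, Polynomial.eval_monomial, mul_pow]
      ring
    rw [Finset.sum_congr rfl h2]
    exact h1
  · intro e he
    obtain ⟨n, hn⟩ := key e he
    refine ⟨∑ m ∈ Finset.range n, Polynomial.monomial m (w ^ m / m.factorial * (Complex.I ^ m).im),
      fun y => ?_⟩
    have h1 := (Complex.abs_im_le_norm _).trans (hn y)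
    rw [Complex.sub_im, Complex.im_sum, Complex.exp_ofReal_mul_I_im] at h1
    rw [Polynomial.eval_finset_sum, abs_sub_comm]
    have h2 : ∀ m ∈ Finset.range n, Polynomial.eval y
        (Polynomial.monomial m (w ^ m / m.factorial * (Complex.I ^ m).im)) =
        ((((w * y : ℝ) : ℂ) * Complex.I) ^ m / m.factorial).im := by
      intro m _
      rw [hterm, Complex.im_ofReal_mul, Polynomial.eval_monomial, mul_pow]
      ring
    rw [Finset.sum_congr rfl h2]
    exact h1

theorem ac_ind {d w : ℝ} (hd : 0 < d) (hw : |w| ≤ d / 4) (j : ℕ) :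
    ac_G d (fun y => Real.cos (j * (w * y))) ∧ ac_G d (fun y => Real.sin (j * (w * y))) := by
  obtain ⟨hc, hs⟩ := ac_base hw
  induction j with
  | zero =>
    constructor
    · intro e he
      refine ⟨1, fun y => ?_⟩
      simp
      positivity
    · intro e he
      refine ⟨0, fun y => ?_⟩
      simp
      positivity
  | succ j ih =>
    obtain ⟨ihc, ihs⟩ := ih
    have hc1 : ∀ y : ℝ, |Real.cos (w * y)| ≤ 1 := fun y => Real.abs_cos_le_one _
    have hs1 : ∀ y : ℝ, |Real.sin (w * y)| ≤ 1 := fun y => Real.abs_sin_le_one _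
    constructor
    · have h := ac_sub (ac_mul hd hc ihc hc1) (ac_mul hd hs ihs hs1)
      have e : (fun y => Real.cos (((j + 1 : ℕ) : ℝ) * (w * y))) =
          fun y => Real.cos (w * y) * Real.cos (j * (w * y)) -
            Real.sin (w * y) * Real.sin (j * (w * y)) := by
        funext y
        have : (((j + 1 : ℕ) : ℝ) * (w * y)) = w * y + j * (w * y) := by push_cast; ring
        rw [this, Real.cos_add]
      rw [e]
      exact h
    · have h := ac_add (ac_mul hd hs ihc hs1) (ac_mul hd hc ihs hc1)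
      have e : (fun y => Real.sin (((j + 1 : ℕ) : ℝ) * (w * y))) =
          fun y => Real.sin (w * y) * Real.cos (j * (w * y)) +
            Real.cos (w * y) * Real.sin (j * (w * y)) := by
        funext y
        have : (((j + 1 : ℕ) : ℝ) * (w * y)) = w * y + j * (w * y) := by push_cast; ring
        rw [this, Real.sin_add]
      rw [e]
      exact h

theorem approx_cos (δ ε ω : ℝ) (hδ : 0 < δ) (hε : 0 < ε) :
    ∃ H : Polynomial ℝ, ∀ y : ℝ, |H.eval y - Real.cos (ω * y)| ≤ ε * Real.exp (δ * |y|) := by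
  obtain ⟨K, hK⟩ := exists_nat_gt (4 * |ω| / δ)
  have hK0 : (0:ℝ) < K := lt_of_le_of_lt (by positivity) hK
  have hw : |ω / K| ≤ δ / 4 := by
    rw [abs_div, abs_of_pos hK0, div_le_div_iff₀ hK0 (by norm_num)]
    rw [div_lt_iff₀ hδ] at hK
    linarith
  obtain ⟨H, hH⟩ := (ac_ind hδ hw K).1 ε hε
  refine ⟨H, fun y => ?_⟩
  have := hH y
  have e : (K : ℝ) * (ω / K * y) = ω * y := by field_simp
  simp only [e] at this
  exact this

end HS
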