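import Pool.Agent.Helper540.HS.Defs

open MeasureTheory ProbabilityTheory Set Filter
open scoped ENNReal NNReal Topology

namespace HS



theorem uu_props_deriv (κ : ℝ) (N : ℕ) (t : ℝ) (ht : Real.sin (Real.pi * t) = 0) :
    HasDerivAt (uu κ N) 0 t := by
  have h1 : HasDerivAt (fun t : ℝ => Real.sin (Real.pi * t))
      (Real.cos (Real.pi * t) * (Real.pi * 1)) t := ((hasDerivAt_id t).const_mul Real.pi).sin
  have h2 := h1.pow 2
  have h3 : DifferentiableAt ℝ (fun t : ℝ => 1 / 2 * Real.exp ((1 - κ) * t) *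
      Real.cos (2 * Real.pi * N * t)) t := by fun_prop
  have h4 := h2.mul h3.hasDerivAt
  have e : uu κ N = (fun t : ℝ => Real.sin (Real.pi * t)) ^ 2 * (fun t : ℝ => 1 / 2 *
      Real.exp ((1 - κ) * t) * Real.cos (2 * Real.pi * N * t)) := by
    funext s
    show Real.sin (Real.pi * s) ^ 2 / 2 * Real.exp ((1 - κ) * s) * Real.cos (2 * Real.pi * N * s)
      = Real.sin (Real.pi * s) ^ 2 * (1 / 2 * Real.exp ((1 - κ) * s) *
        Real.cos (2 * Real.pi * N * s))
    ring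
  rw [e]
  refine h4.congr_deriv ?_
  simp [ht]

theorem uu_props (κ : ℝ) (N : ℕ) :
    ContDiff ℝ ⊤ (uu κ N) ∧ uu κ N 0 = 0 ∧ uu κ N 1 = 0 ∧ deriv (uu κ N) 0 = 0 ∧
    deriv (uu κ N) 1 = 0 ∧ (1 / 2 ≤ κ → κ ≤ 1 → ∀ t ∈ Icc (0 : ℝ) 1, |uu κ N t| ≤ 1) := by
  refine ⟨?_, ?_, ?_, ?_, ?_, ?_⟩
  · unfold uu
    fun_prop
  · simp [uu]
  · simp [uu]
  · exact (uu_props_deriv κ N 0 (by simp)).deriv
  · exact (uu_props_deriv κ N 1 (by simp)).deriv
  · intro hκ1 hκ2 t ht
    unfold uu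
    have h1 : |Real.sin (Real.pi * t) ^ 2 / 2| ≤ 1 / 2 := by
      rw [abs_of_nonneg (by positivity)]
      have := Real.sin_sq_le_one (Real.pi * t)
      linarith
    have h2 : |Real.exp ((1 - κ) * t)| ≤ 2 := by
      rw [abs_of_pos (Real.exp_pos _)]
      have h3 : (1 - κ) * t ≤ 1 / 2 := by
        have h4 : 0 ≤ 1 - κ := by linarith
        have h5 : (1 - κ) * t ≤ (1 - κ) * 1 := mul_le_mul_of_nonneg_left ht.2 h4
        linarith
      have h6 : Real.exp ((1 - κ) * t) ≤ Real.exp (1 / 2) := Real.exp_le_exp.2 h3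
      have h7 : Real.exp (1 / 2) * Real.exp (1 / 2) = Real.exp 1 := by
        rw [← Real.exp_add]; norm_num
      have h8 := Real.exp_one_lt_d9
      have h9 : Real.exp (1 / 2) ≤ 2 := by
        by_contra hcon
        push Not at hcon
        nlinarith
      linarith
    have h3 : |Real.cos (2 * Real.pi * N * t)| ≤ 1 := Real.abs_cos_le_one _
    rw [abs_mul, abs_mul]
    calc |Real.sin (Real.pi * t) ^ 2 / 2| * |Real.exp ((1 - κ) * t)| *
          |Real.cos (2 * Real.pi * N * t)| ≤ 1 / 2 * 2 * 1 := by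
          apply mul_le_mul _ h3 (abs_nonneg _) (by norm_num)
          exact mul_le_mul h1 h2 (abs_nonneg _) (by norm_num)
      _ = 1 := by norm_num

end HS
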