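import Pool.Agent.Helper540.HS.Defs
import Pool.Agent.Helper540.HS.P_uu_props

open MeasureTheory ProbabilityTheory Set Filter
open scoped ENNReal NNReal Topology

namespace HS



theorem ibp_core (a : ℝ) (ha : 0 < a) (Q : Polynomial ℝ) (u u1 u2 : ℝ → ℝ)
    (hu : ∀ t, HasDerivAt u (u1 t) t) (hu1 : ∀ t, HasDerivAt u1 (u2 t) t) (hu2 : Continuous u2)
    (h0 : u 0 = 0) (h1 : u 1 = 0) (h10 : u1 0 = 0) (h11 : u1 1 = 0) :
    ∫ t in (0 : ℝ)..1, (ou1 Q).eval (a + t / a) * u t * Real.exp (- t - t ^ 2 / (2 * a ^ 2)) =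
    ∫ t in (0 : ℝ)..1, Q.eval (a + t / a) * (a ^ 2 * u2 t - (a ^ 2 + t) * u1 t) *
        Real.exp (- t - t ^ 2 / (2 * a ^ 2)) := by
  have ha' : a ≠ 0 := ha.ne'
  have huc : Continuous u := continuous_iff_continuousAt.2 fun t => (hu t).continuousAt
  have hu1c : Continuous u1 := continuous_iff_continuousAt.2 fun t => (hu1 t).continuousAt
  have hs : ∀ t : ℝ, HasDerivAt (fun t : ℝ => a + t / a) (1 / a) t := by
    intro t
    exact ((hasDerivAt_id t).div_const a).const_add a
  have hpoly : ∀ (R : Polynomial ℝ) (t : ℝ), HasDerivAt (fun t : ℝ => R.eval (a + t / a))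
      ((Polynomial.derivative R).eval (a + t / a) * (1 / a)) t := by
    intro R t
    exact (R.hasDerivAt (a + t / a)).comp t (hs t)
  have hE : ∀ t : ℝ, HasDerivAt (fun t : ℝ => Real.exp (- t - t ^ 2 / (2 * a ^ 2)))
      (Real.exp (- t - t ^ 2 / (2 * a ^ 2)) * (-1 - t / a ^ 2)) t := by
    intro t
    have h2 : HasDerivAt (fun t : ℝ => - t - t ^ 2 / (2 * a ^ 2)) (-1 - t / a ^ 2) t := by
      have h3 := ((hasDerivAt_id t).neg).sub (((hasDerivAt_pow 2 t)).div_const (2 * a ^ 2))
      refine h3.congr_deriv ?_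
      field_simp
      norm_num
      ring
    exact h2.exp
  have hpc : ∀ R : Polynomial ℝ, Continuous (fun t : ℝ => R.eval (a + t / a)) := fun R =>
    continuous_iff_continuousAt.2 fun t => (hpoly R t).continuousAt
  have hEc : Continuous (fun t : ℝ => Real.exp (- t - t ^ 2 / (2 * a ^ 2))) :=
    continuous_iff_continuousAt.2 fun t => (hE t).continuousAt
  have hF : ∀ t : ℝ, HasDerivAt (fun t : ℝ =>
      (a * (Polynomial.derivative Q).eval (a + t / a)) * Real.exp (- t - t ^ 2 / (2 * a ^ 2)) * u t -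
      (a ^ 2 * Q.eval (a + t / a)) * u1 t * Real.exp (- t - t ^ 2 / (2 * a ^ 2)))
      ((ou1 Q).eval (a + t / a) * u t * Real.exp (- t - t ^ 2 / (2 * a ^ 2)) -
      Q.eval (a + t / a) * (a ^ 2 * u2 t - (a ^ 2 + t) * u1 t) *
        Real.exp (- t - t ^ 2 / (2 * a ^ 2))) t := by
    intro t
    have e1 := (((hpoly (Polynomial.derivative Q) t).const_mul a).mul (hE t)).mul (hu t)
    have e2 := (((hpoly Q t).const_mul (a ^ 2)).mul (hu1 t)).mul (hE t)
    refine (e1.sub e2).congr_deriv ?_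
    simp only [Pi.mul_apply]
    unfold ou1
    rw [Polynomial.eval_sub, Polynomial.eval_mul, Polynomial.eval_X]
    generalize Polynomial.eval (a + t / a) (Polynomial.derivative (Polynomial.derivative Q)) = A2
    generalize Polynomial.eval (a + t / a) (Polynomial.derivative Q) = A1
    generalize Polynomial.eval (a + t / a) Q = A0
    generalize Real.exp (- t - t ^ 2 / (2 * a ^ 2)) = E
    field_simp
    ring
  have hc1 : Continuous (fun t : ℝ =>
      (ou1 Q).eval (a + t / a) * u t * Real.exp (- t - t ^ 2 / (2 * a ^ 2))) :=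
    ((hpc _).mul huc).mul hEc
  have hc2 : Continuous (fun t : ℝ => Q.eval (a + t / a) *
      (a ^ 2 * u2 t - (a ^ 2 + t) * u1 t) * Real.exp (- t - t ^ 2 / (2 * a ^ 2))) :=
    ((hpc _).mul ((continuous_const.mul hu2).sub
      ((continuous_const.add continuous_id).mul hu1c))).mul hEc
  have hint := intervalIntegral.integral_eq_sub_of_hasDerivAt (a := (0 : ℝ)) (b := 1)
    (fun t _ => hF t) ((hc1.sub hc2).intervalIntegrable 0 1)
  rw [intervalIntegral.integral_sub (hc1.intervalIntegrable 0 1) (hc2.intervalIntegrable 0 1),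
    h0, h1, h10, h11] at hint
  simp only [mul_zero, zero_mul, sub_zero] at hint
  linarith

theorem ibp (κ a : ℝ) (N : ℕ) (ha : 0 < a) (Q : Polynomial ℝ) :
    ∫ s, (ou1 Q).eval s * theta κ N a s ∂(gaussianReal 0 1) =
      (√(2 * Real.pi))⁻¹ * Real.exp (- a ^ 2 / 2) * a⁻¹ *
      ∫ t in (0 : ℝ)..1, Q.eval (a + t / a) *
        (a ^ 2 * deriv (deriv (uu κ N)) t - (a ^ 2 + t) * deriv (uu κ N) t) *
        Real.exp (- t - t ^ 2 / (2 * a ^ 2)) := by
  have ha' : a ≠ 0 := ha.ne'
  obtain ⟨hC, h0, h1, h10, h11, -⟩ := uu_props κ N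
  have hC2 : ContDiff ℝ (1 + 1) (uu κ N) := hC.of_le le_top
  obtain ⟨hd1, -, hC1⟩ := contDiff_succ_iff_deriv.1 hC2
  have hd2 : Differentiable ℝ (deriv (uu κ N)) := hC1.differentiable one_ne_zero
  have hcd2 : Continuous (deriv (deriv (uu κ N))) := hC1.continuous_deriv le_rfl
  have hcore := ibp_core a ha Q (uu κ N) (deriv (uu κ N)) (deriv (deriv (uu κ N)))
    (fun t => (hd1 t).hasDerivAt) (fun t => (hd2 t).hasDerivAt) hcd2 h0 h1 h10 h11
  rw [← hcore, integral_gaussianReal_eq_integral_smul one_ne_zero]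
  have hab : a ≤ a + 1 / a := by
    have : 0 < 1 / a := by positivity
    linarith
  have hstep1 : ∫ s, gaussianPDFReal 0 1 s • ((ou1 Q).eval s * theta κ N a s) =
      ∫ s in a..(a + 1 / a), gaussianPDFReal 0 1 s * ((ou1 Q).eval s * uu κ N (a * (s - a))) := by
    rw [intervalIntegral.integral_of_le hab, ← integral_Icc_eq_integral_Ioc,
      ← integral_indicator measurableSet_Icc]
    refine integral_congr_ae (Filter.Eventually.of_forall fun s => ?_)
    beta_reduce
    by_cases hs : s ∈ Icc a (a + 1 / a)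
    · rw [indicator_of_mem hs]
      unfold theta
      have hs' : a ≤ s ∧ s ≤ a + 1 / a := hs
      rw [if_pos hs', smul_eq_mul]
    · rw [indicator_of_notMem hs]
      unfold theta
      have hs' : ¬ (a ≤ s ∧ s ≤ a + 1 / a) := hs
      rw [if_neg hs', mul_zero, smul_zero]
  rw [hstep1]
  have hsub := intervalIntegral.integral_comp_add_div (a := (0 : ℝ)) (b := 1)
    (fun s => gaussianPDFReal 0 1 s * ((ou1 Q).eval s * uu κ N (a * (s - a)))) ha' a
  rw [zero_div, add_zero, smul_eq_mul] at hsub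
  have hsub' : (∫ s in a..(a + 1 / a), gaussianPDFReal 0 1 s *
      ((ou1 Q).eval s * uu κ N (a * (s - a)))) = a⁻¹ * ∫ t in (0 : ℝ)..1,
      gaussianPDFReal 0 1 (a + t / a) *
        ((ou1 Q).eval (a + t / a) * uu κ N (a * (a + t / a - a))) := by
    rw [hsub, ← mul_assoc, inv_mul_cancel₀ ha', one_mul]
  rw [hsub']
  have hcongr : (∫ t in (0 : ℝ)..1, gaussianPDFReal 0 1 (a + t / a) *
        ((ou1 Q).eval (a + t / a) * uu κ N (a * (a + t / a - a)))) =
      ∫ t in (0 : ℝ)..1, ((√(2 * Real.pi))⁻¹ * Real.exp (- a ^ 2 / 2)) *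
        ((ou1 Q).eval (a + t / a) * uu κ N t * Real.exp (- t - t ^ 2 / (2 * a ^ 2))) := by
    refine intervalIntegral.integral_congr fun t _ => ?_
    beta_reduce
    have e1 : a * (a + t / a - a) = t := by
      field_simp
      ring
    have e2 : gaussianPDFReal 0 1 (a + t / a) = (√(2 * Real.pi))⁻¹ * (Real.exp (- a ^ 2 / 2) *
        Real.exp (- t - t ^ 2 / (2 * a ^ 2))) := by
      unfold gaussianPDFReal
      rw [← Real.exp_add, NNReal.coe_one, mul_one, mul_one, sub_zero]
      congr 2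
      field_simp
      ring
    rw [e1, e2]
    ring
  rw [hcongr, intervalIntegral.integral_const_mul]
  ring

end HS
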