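import Pool.Agent.Helper540.HS.Defs
import Pool.Agent.Helper540.HS.P_QQ_props

open MeasureTheory ProbabilityTheory Set Filter
open scoped ENNReal NNReal Topology

namespace HS



theorem lim1d (κ : ℝ) (hκ : 0 < κ) (H : Polynomial ℝ) (v w : ℝ → ℝ) (hv : Continuous v)
    (hw : Continuous w) (A : ℕ → ℝ) (hA : ∀ k, A k = √((2 * k + 1) / κ)) :
    Tendsto (fun k : ℕ => ∫ t in (0 : ℝ)..1, (QQ (A k) (2 * k + 1) H).eval (A k + t / A k) *
        (w t - v t - t * v t / A k ^ 2) * Real.exp (- t - t ^ 2 / (2 * A k ^ 2))) atTop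
      (𝓝 (∫ t in (0 : ℝ)..1, Real.exp (κ * t) * H.eval t * (w t - v t) * Real.exp (-t))) := by
  obtain ⟨e, he⟩ : ∃ e : ℕ → ℝ, e = fun k : ℕ => κ / (2 * (k : ℝ) + 1) := ⟨_, rfl⟩
  have hepos : ∀ k, 0 < e k := by
    intro k
    rw [he]
    positivity
  have hele : ∀ k, e k ≤ κ := by
    intro k
    rw [he]
    apply div_le_self hκ.le
    have : (0 : ℝ) ≤ k := Nat.cast_nonneg k
    linarith
  have helim : Tendsto e atTop (𝓝 0) := by
    rw [he]
    have h1 : Tendsto (fun k : ℕ => 2 * (k : ℝ) + 1) atTop atTop :=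
      tendsto_atTop_add_const_right _ _
        (Tendsto.const_mul_atTop (by norm_num) tendsto_natCast_atTop_atTop)
    exact tendsto_const_nhds.div_atTop h1
  have hApos : ∀ k, 0 < A k := by
    intro k
    rw [hA]
    apply Real.sqrt_pos.2
    positivity
  have hA2 : ∀ k, A k ^ 2 = (2 * k + 1) / κ := by
    intro k
    rw [hA, Real.sq_sqrt (by positivity)]
  have hAe : ∀ k, (A k ^ 2)⁻¹ = e k := by
    intro k
    rw [hA2, he, inv_div]
  have hF : ∀ k t, (QQ (A k) (2 * k + 1) H).eval (A k + t / A k) *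
        (w t - v t - t * v t / A k ^ 2) * Real.exp (- t - t ^ 2 / (2 * A k ^ 2)) =
      (1 + κ * t / ((2 * k + 1 : ℕ) : ℝ)) ^ (2 * k + 1) * H.eval (t + t ^ 2 * e k / 2) *
        (w t - v t - t * v t * e k) * Real.exp (-t - t ^ 2 * e k / 2) := by
    intro k t
    have hA0 := (hApos k).ne'
    rw [(QQ_props (A k) (2 * k + 1) H).1]
    have h1 : (A k + t / A k) / A k = 1 + κ * t / ((2 * k + 1 : ℕ) : ℝ) := by
      have h2 : (A k + t / A k) / A k = 1 + t * (A k ^ 2)⁻¹ := by field_simp
      rw [h2, hAe, he]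
      push_cast
      ring
    have h3 : ((A k + t / A k) ^ 2 - A k ^ 2) / 2 = t + t ^ 2 * e k / 2 := by
      rw [← hAe]
      field_simp
      ring
    have h4 : t * v t / A k ^ 2 = t * v t * e k := by
      rw [← hAe]
      rfl
    have h5 : t ^ 2 / (2 * A k ^ 2) = t ^ 2 * e k / 2 := by
      rw [← hAe]
      field_simp
    rw [h1, h3, h4, h5]
  simp only [hF]
  obtain ⟨CH, hCH⟩ := (isCompact_Icc (a := (0 : ℝ)) (b := 1 + κ / 2)).exists_bound_of_continuousOn
    (f := fun x => H.eval x) H.continuous.continuousOn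
  obtain ⟨Cv, hCv⟩ := (isCompact_Icc (a := (0 : ℝ)) (b := 1)).exists_bound_of_continuousOn
    (f := v) hv.continuousOn
  obtain ⟨Cw, hCw⟩ := (isCompact_Icc (a := (0 : ℝ)) (b := 1)).exists_bound_of_continuousOn
    (f := w) hw.continuousOn
  have hCH0 : 0 ≤ CH := (norm_nonneg _).trans (hCH 0 ⟨le_rfl, by positivity⟩)
  have hCv0 : 0 ≤ Cv := (norm_nonneg _).trans (hCv 0 ⟨le_rfl, zero_le_one⟩)
  have hCw0 : 0 ≤ Cw := (norm_nonneg _).trans (hCw 0 ⟨le_rfl, zero_le_one⟩)
  have hcast : ∀ k : ℕ, (0 : ℝ) < ((2 * k + 1 : ℕ) : ℝ) := by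
    intro k
    exact_mod_cast Nat.succ_pos _
  refine intervalIntegral.tendsto_integral_filter_of_dominated_convergence
    (fun _ => Real.exp κ * CH * (Cw + Cv + Cv * κ) * 1) ?_ ?_ ?_ ?_
  · refine Eventually.of_forall fun k => ?_
    have hc : Continuous (fun t : ℝ => (1 + κ * t / ((2 * k + 1 : ℕ) : ℝ)) ^ (2 * k + 1) *
        H.eval (t + t ^ 2 * e k / 2) *
        (w t - v t - t * v t * e k) * Real.exp (-t - t ^ 2 * e k / 2)) := by
      have h1 : Continuous (fun t : ℝ => H.eval (t + t ^ 2 * e k / 2)) :=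
        H.continuous.comp (by fun_prop)
      have h2 : Continuous (fun t : ℝ => (1 + κ * t / ((2 * k + 1 : ℕ) : ℝ)) ^ (2 * k + 1)) := by
        fun_prop
      have h3 : Continuous (fun t : ℝ => w t - v t - t * v t * e k) := by fun_prop
      have h4 : Continuous (fun t : ℝ => Real.exp (-t - t ^ 2 * e k / 2)) := by fun_prop
      exact ((h2.mul h1).mul h3).mul h4
    exact hc.aestronglyMeasurable
  · refine Eventually.of_forall fun k => Eventually.of_forall fun t ht => ?_
    rw [Set.uIoc_of_le zero_le_one] at ht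
    have ht0 : 0 ≤ t := ht.1.le
    have ht1 : t ≤ 1 := ht.2
    have hk := hepos k
    have hk' := hele k
    rw [norm_mul, norm_mul, norm_mul]
    have b1 : ‖(1 + κ * t / ((2 * k + 1 : ℕ) : ℝ)) ^ (2 * k + 1)‖ ≤ Real.exp κ := by
      have h0 : 0 ≤ κ * t / ((2 * k + 1 : ℕ) : ℝ) := by
        have := hcast k
        positivity
      rw [Real.norm_of_nonneg (by positivity)]
      have h1 : 1 + κ * t / ((2 * k + 1 : ℕ) : ℝ) ≤ Real.exp (κ * t / ((2 * k + 1 : ℕ) : ℝ)) := by
        rw [add_comm]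
        exact Real.add_one_le_exp _
      calc (1 + κ * t / ((2 * k + 1 : ℕ) : ℝ)) ^ (2 * k + 1)
          ≤ (Real.exp (κ * t / ((2 * k + 1 : ℕ) : ℝ))) ^ (2 * k + 1) :=
            pow_le_pow_left₀ (by positivity) h1 _
        _ = Real.exp (κ * t) := by
            rw [← Real.exp_nat_mul]
            congr 1
            have := (hcast k).ne'
            field_simp
        _ ≤ Real.exp κ := by
            apply Real.exp_le_exp.2
            nlinarith
    have b2 : ‖H.eval (t + t ^ 2 * e k / 2)‖ ≤ CH := by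
      apply hCH
      constructor
      · positivity
      · have h1 : t ^ 2 ≤ 1 := by nlinarith
        have h2 : t ^ 2 * e k ≤ 1 * κ := mul_le_mul h1 hk' hk.le zero_le_one
        linarith
    have b3 : ‖w t - v t - t * v t * e k‖ ≤ Cw + Cv + Cv * κ := by
      have c1 := hCw t ⟨ht0, ht1⟩
      have c2 := hCv t ⟨ht0, ht1⟩
      have c3 : ‖t * v t * e k‖ ≤ Cv * κ := by
        rw [norm_mul, norm_mul, Real.norm_of_nonneg hk.le, Real.norm_of_nonneg ht0]
        have h1 : t * ‖v t‖ ≤ Cv := by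
          have := norm_nonneg (v t)
          nlinarith
        exact mul_le_mul h1 hk' hk.le hCv0
      calc ‖w t - v t - t * v t * e k‖ ≤ ‖w t - v t‖ + ‖t * v t * e k‖ := norm_sub_le _ _
        _ ≤ (‖w t‖ + ‖v t‖) + ‖t * v t * e k‖ := by
            have := norm_sub_le (w t) (v t)
            linarith
        _ ≤ Cw + Cv + Cv * κ := by linarith
    have b4 : ‖Real.exp (-t - t ^ 2 * e k / 2)‖ ≤ 1 := by
      rw [Real.norm_of_nonneg (Real.exp_pos _).le]
      apply Real.exp_le_one_iff.2
      have : 0 ≤ t ^ 2 * e k / 2 := by positivity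
      linarith
    have hexp := (Real.exp_pos κ).le
    exact mul_le_mul (mul_le_mul (mul_le_mul b1 b2 (norm_nonneg _) hexp) b3 (norm_nonneg _)
      (by positivity)) b4 (norm_nonneg _) (by positivity)
  · exact intervalIntegrable_const
  · refine Eventually.of_forall fun t _ => ?_
    have l1 : Tendsto (fun k : ℕ => (1 + κ * t / ((2 * k + 1 : ℕ) : ℝ)) ^ (2 * k + 1)) atTop
        (𝓝 (Real.exp (κ * t))) := by
      have h1 : Tendsto (fun k : ℕ => 2 * k + 1) atTop atTop := by
        apply tendsto_atTop_mono (f := fun k : ℕ => k) _ tendsto_id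
        intro k
        omega
      exact (Real.tendsto_one_add_div_pow_exp (κ * t)).comp h1
    have l2 : Tendsto (fun k : ℕ => H.eval (t + t ^ 2 * e k / 2)) atTop (𝓝 (H.eval t)) := by
      have h1 : Tendsto (fun k : ℕ => t + t ^ 2 * e k / 2) atTop (𝓝 t) := by
        have h2 := (helim.const_mul (t ^ 2)).div_const 2
        have h3 := h2.const_add t
        simp only [mul_zero, zero_div, add_zero] at h3
        exact h3
      exact (H.continuous.tendsto t).comp h1
    have l3 : Tendsto (fun k : ℕ => w t - v t - t * v t * e k) atTop (𝓝 (w t - v t)) := by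
      have h2 := (helim.const_mul (t * v t)).const_sub (w t - v t)
      simp only [mul_zero, sub_zero] at h2
      exact h2
    have l4 : Tendsto (fun k : ℕ => Real.exp (-t - t ^ 2 * e k / 2)) atTop (𝓝 (Real.exp (-t))) := by
      have h2 := ((helim.const_mul (t ^ 2)).div_const 2).const_sub (-t)
      simp only [mul_zero, zero_div, sub_zero] at h2
      exact (Real.continuous_exp.tendsto _).comp h2
    exact ((l1.mul l2).mul l3).mul l4

end HS
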