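import Pool.Agent.Helper540.HS.Defs

open MeasureTheory ProbabilityTheory Set Filter
open scoped ENNReal NNReal Topology

namespace HS



theorem low_sum (ρ : Measure ℝ) [IsProbabilityMeasure ρ] (R θ : ℝ → ℝ) (hR : Integrable R ρ)
    (hθ : Measurable θ) (hθ1 : ∀ s, |θ s| ≤ 1) (n : ℕ) (hn : 1 ≤ n) :
    ENNReal.ofReal (n * |∫ s, R s * θ s ∂ρ| * (1 - ∫ s, θ s ^ 2 ∂ρ) ^ (n - 1)) ≤
      eLpNorm (fun x : Fin n → ℝ => ∑ j, R (x j)) 1 (Measure.pi (fun _ => ρ)) := by
  classical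
  set h : ℝ → ℂ := fun s => ((Real.sqrt (1 - θ s ^ 2) : ℝ) : ℂ) + (θ s : ℂ) * Complex.I with hh
  have hm : Measurable h := by
    refine Measurable.add ?_ ?_
    · exact Complex.measurable_ofReal.comp ((measurable_const.sub (hθ.pow_const 2)).sqrt)
    · exact (Complex.measurable_ofReal.comp hθ).mul_const _
  have hsq : ∀ s, 0 ≤ 1 - θ s ^ 2 := fun s => by
    have h1 := abs_le.mp (hθ1 s)
    nlinarith
  have hsq1 : ∀ s, θ s ^ 2 ≤ 1 := fun s => by linarith [hsq s]
  have hnorm : ∀ s, ‖h s‖ = 1 := by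
    intro s
    have h1 : ‖h s‖ = Real.sqrt ((Real.sqrt (1 - θ s^2))^2 + (θ s)^2) := Complex.norm_add_mul_I _ _
    rw [h1, Real.sq_sqrt (hsq s)]; simp
  have hRh : Integrable (fun s => (R s : ℂ) * h s) ρ := by
    refine Integrable.mono' hR.norm (hR.ofReal.aestronglyMeasurable.mul hm.aestronglyMeasurable) ?_
    refine ae_of_all _ (fun s => ?_)
    rw [norm_mul, hnorm, mul_one, Complex.norm_real]
  have hhint : Integrable h ρ := by
    refine Integrable.mono' (integrable_const (1 : ℝ)) hm.aestronglyMeasurable ?_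
    exact ae_of_all _ (fun s => by rw [hnorm])
  have hintR : ∀ j : Fin n, Integrable (fun x : Fin n → ℝ => R (x j)) (Measure.pi fun _ => ρ) := fun j =>
    (measurePreserving_eval (fun _ : Fin n => ρ) j).integrable_comp_of_integrable hR
  have hPm : Measurable (fun x : Fin n → ℝ => ∏ k, h (x k)) := by
    exact Finset.measurable_prod _ (fun k _ => hm.comp (measurable_pi_apply k))
  have hPn : ∀ x : Fin n → ℝ, ‖∏ k, h (x k)‖ = 1 := by
    intro x
    rw [norm_prod]
    simp [hnorm]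
  have hintF : ∀ j : Fin n, Integrable (fun x : Fin n → ℝ => (R (x j) : ℂ) * ∏ k, h (x k))
      (Measure.pi fun _ => ρ) := by
    intro j
    refine Integrable.mono' (hintR j).norm ((hintR j).ofReal.aestronglyMeasurable.mul hPm.aestronglyMeasurable) ?_
    refine ae_of_all _ (fun x => ?_)
    rw [norm_mul, hPn, mul_one, Complex.norm_real]
  have hprod : ∀ j : Fin n, ∫ x : Fin n → ℝ, (R (x j) : ℂ) * ∏ k, h (x k) ∂(Measure.pi fun _ => ρ)
      = (∫ s, (R s : ℂ) * h s ∂ρ) * (∫ s, h s ∂ρ) ^ (n - 1) := by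
    intro j
    have e1 : ∀ x : Fin n → ℝ, (R (x j) : ℂ) * ∏ k, h (x k)
        = ∏ k, (fun k => if k = j then (fun s => (R s : ℂ) * h s) else h : Fin n → ℝ → ℂ) k (x k) := by
      intro x
      rw [← Finset.mul_prod_erase _ _ (Finset.mem_univ j), ← Finset.mul_prod_erase _ _ (Finset.mem_univ j)]
      have e2 : ∏ k ∈ Finset.univ.erase j, (fun k => if k = j then (fun s => (R s : ℂ) * h s) else h : Fin n → ℝ → ℂ) k (x k)
          = ∏ k ∈ Finset.univ.erase j, h (x k) := by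
        apply Finset.prod_congr rfl
        intro k hk
        have hkj : k ≠ j := (Finset.mem_erase.mp hk).1
        simp only [if_neg hkj]
      rw [e2]
      simp only [if_true]
      ring
    simp_rw [e1]
    rw [integral_fintype_prod_eq_prod]
    rw [← Finset.mul_prod_erase _ _ (Finset.mem_univ j)]
    have e3 : ∏ k ∈ Finset.univ.erase j, ∫ s, (fun k => if k = j then (fun s => (R s : ℂ) * h s) else h : Fin n → ℝ → ℂ) k s ∂ρ
        = (∫ s, h s ∂ρ) ^ (n - 1) := by
      have e4 : ∏ k ∈ Finset.univ.erase j, ∫ s, (fun k => if k = j then (fun s => (R s : ℂ) * h s) else h : Fin n → ℝ → ℂ) k s ∂ρ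
          = ∏ k ∈ Finset.univ.erase j, ∫ s, h s ∂ρ := by
        apply Finset.prod_congr rfl
        intro k hk
        have hkj : k ≠ j := (Finset.mem_erase.mp hk).1
        simp only [if_neg hkj]
      rw [e4, Finset.prod_const, Finset.card_erase_of_mem (Finset.mem_univ j), Finset.card_univ, Fintype.card_fin]
    rw [e3]
    simp only [if_true]
  have hsum : ∫ x : Fin n → ℝ, ((∑ j, R (x j) : ℝ) : ℂ) * ∏ k, h (x k) ∂(Measure.pi fun _ => ρ)
      = n * ((∫ s, (R s : ℂ) * h s ∂ρ) * (∫ s, h s ∂ρ) ^ (n - 1)) := by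
    have e5 : ∀ x : Fin n → ℝ, ((∑ j, R (x j) : ℝ) : ℂ) * ∏ k, h (x k)
        = ∑ j, (R (x j) : ℂ) * ∏ k, h (x k) := by
      intro x
      rw [Complex.ofReal_sum, Finset.sum_mul]
    simp_rw [e5]
    rw [integral_finset_sum _ (fun j _ => hintF j)]
    simp_rw [hprod]
    rw [Finset.sum_const, Finset.card_univ, Fintype.card_fin, nsmul_eq_mul]
  have hS : Integrable (fun x : Fin n → ℝ => ∑ j, R (x j)) (Measure.pi fun _ => ρ) :=
    integrable_finset_sum _ (fun j _ => hintR j)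
  have hle : ‖∫ x : Fin n → ℝ, ((∑ j, R (x j) : ℝ) : ℂ) * ∏ k, h (x k) ∂(Measure.pi fun _ => ρ)‖
      ≤ ∫ x : Fin n → ℝ, ‖∑ j, R (x j)‖ ∂(Measure.pi fun _ => ρ) := by
    refine (norm_integral_le_integral_norm _).trans (le_of_eq ?_)
    congr 1
    funext x
    rw [norm_mul, hPn, mul_one, Complex.norm_real]
  rw [hsum, norm_mul, norm_mul, norm_pow, Complex.norm_natCast] at hle
  have hIm : |∫ s, R s * θ s ∂ρ| ≤ ‖∫ s, (R s : ℂ) * h s ∂ρ‖ := by
    refine le_trans (le_of_eq ?_) (Complex.abs_im_le_norm _)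
    congr 1
    have e6 : (∫ s, (R s : ℂ) * h s ∂ρ).im = ∫ s, ((R s : ℂ) * h s).im ∂ρ := by
      have := integral_im hRh
      simpa using this.symm
    rw [e6]
    congr 1
    funext s
    simp [hh]
  have hRe : 1 - ∫ s, θ s ^ 2 ∂ρ ≤ ‖∫ s, h s ∂ρ‖ := by
    refine le_trans ?_ (Complex.re_le_norm _)
    have e7 : (∫ s, h s ∂ρ).re = ∫ s, (h s).re ∂ρ := by
      have := integral_re hhint
      simpa using this.symm
    rw [e7]
    have hθ2 : Integrable (fun s => θ s ^ 2) ρ := by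
      refine Integrable.mono' (integrable_const (1 : ℝ)) (hθ.pow_const 2).aestronglyMeasurable ?_
      refine ae_of_all _ (fun s => ?_)
      rw [Real.norm_eq_abs, abs_of_nonneg (sq_nonneg _)]
      exact hsq1 s
    have e8 : 1 - ∫ s, θ s ^ 2 ∂ρ = ∫ s, (1 - θ s ^ 2) ∂ρ := by
      rw [integral_sub (integrable_const _) hθ2]
      simp
    rw [e8]
    apply integral_mono
    · exact (integrable_const _).sub hθ2
    · exact hhint.re
    · intro s
      have e9 : (h s).re = Real.sqrt (1 - θ s ^ 2) := by simp [hh]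
      show 1 - θ s ^ 2 ≤ (h s).re
      rw [e9]
      apply Real.le_sqrt_of_sq_le
      nlinarith [hsq s, hsq1 s, sq_nonneg (θ s)]
  have hθ0 : 0 ≤ 1 - ∫ s, θ s ^ 2 ∂ρ := by
    have h1 : ∫ s, θ s ^ 2 ∂ρ ≤ ∫ _s, (1 : ℝ) ∂ρ := by
      apply integral_mono_of_nonneg
      · exact ae_of_all _ (fun s => sq_nonneg _)
      · exact integrable_const _
      · exact ae_of_all _ (fun s => hsq1 s)
    simp at h1
    linarith
  have hfin : (n : ℝ) * |∫ s, R s * θ s ∂ρ| * (1 - ∫ s, θ s ^ 2 ∂ρ) ^ (n - 1)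
      ≤ ∫ x : Fin n → ℝ, ‖∑ j, R (x j)‖ ∂(Measure.pi fun _ => ρ) := by
    refine le_trans ?_ hle
    rw [mul_assoc]
    apply mul_le_mul_of_nonneg_left _ (Nat.cast_nonneg n)
    apply mul_le_mul hIm (pow_le_pow_left₀ hθ0 hRe _) (pow_nonneg hθ0 _) (norm_nonneg _)
  rw [eLpNorm_one_eq_lintegral_enorm, ← ofReal_integral_norm_eq_lintegral_enorm hS]
  exact ENNReal.ofReal_le_ofReal hfin

end HS
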