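import Pool.Agent.Helper540.HS.Defs
import Pool.Agent.Helper540.HS.P_uu_props

open MeasureTheory ProbabilityTheory Set Filter
open scoped ENNReal NNReal Topology

namespace HS



theorem mi_int_cos (k : ℝ) (hk : k ≠ 0) (hs : Real.sin k = 0) :
    ∫ t in (0 : ℝ)..1, Real.cos (k * t) = 0 := by
  have h1 : ∀ t ∈ Set.uIcc (0:ℝ) 1,
      HasDerivAt (fun t : ℝ => Real.sin (k * t) / k) (Real.cos (k * t)) t := by
    intro t _
    have h2 : HasDerivAt (fun t : ℝ => k * t) k t := by
      simpa using (hasDerivAt_id t).const_mul k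
    have h3 := h2.sin.div_const k
    rwa [mul_div_cancel_right₀ _ hk] at h3
  rw [intervalIntegral.integral_eq_sub_of_hasDerivAt h1
    (Continuous.intervalIntegrable (by fun_prop) _ _)]
  simp [hs]

theorem mi_int_sin (k : ℝ) (hk : k ≠ 0) (hs : Real.cos k = 1) :
    ∫ t in (0 : ℝ)..1, Real.sin (k * t) = 0 := by
  have h1 : ∀ t ∈ Set.uIcc (0:ℝ) 1,
      HasDerivAt (fun t : ℝ => - Real.cos (k * t) / k) (Real.sin (k * t)) t := by
    intro t _
    have h2 : HasDerivAt (fun t : ℝ => k * t) k t := by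
      simpa using (hasDerivAt_id t).const_mul k
    have h3 := h2.cos.neg.div_const k
    rwa [neg_mul, neg_neg, mul_div_cancel_right₀ _ hk] at h3
  rw [intervalIntegral.integral_eq_sub_of_hasDerivAt h1
    (Continuous.intervalIntegrable (by fun_prop) _ _)]
  simp [hs]

theorem mi_cos_int (n : ℤ) : Real.cos (2 * Real.pi * n) = 1 := by
  rw [mul_comm]
  exact Real.cos_int_mul_two_pi n

theorem mi_sin_int (n : ℤ) : Real.sin (2 * Real.pi * n) = 0 := by
  have : 2 * Real.pi * (n : ℝ) = ((2 * n : ℤ) : ℝ) * Real.pi := by push_cast; ring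
  rw [this]
  exact Real.sin_int_mul_pi _

theorem mi_ic (n : ℤ) (hn : n ≠ 0) : ∫ t in (0 : ℝ)..1, Real.cos (2 * Real.pi * n * t) = 0 := by
  apply mi_int_cos _ _ (mi_sin_int n)
  have : (n : ℝ) ≠ 0 := by exact_mod_cast hn
  have := Real.pi_pos.ne'
  positivity

theorem mi_is (n : ℤ) (hn : n ≠ 0) : ∫ t in (0 : ℝ)..1, Real.sin (2 * Real.pi * n * t) = 0 := by
  apply mi_int_sin _ _ (mi_cos_int n)
  have : (n : ℝ) ≠ 0 := by exact_mod_cast hn
  have := Real.pi_pos.ne'
  positivity

theorem mi_final (A B : ℝ) (N : ℕ) (hN : 1 ≤ N) :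
    ∫ t in (0 : ℝ)..1, Real.sin (Real.pi * t) ^ 2 / 2 * (A * Real.cos (2 * Real.pi * N * t) ^ 2
      - B * (Real.sin (2 * Real.pi * N * t) * Real.cos (2 * Real.pi * N * t))) = A / 8 := by
  have e1 : ∀ t : ℝ, Real.sin (Real.pi * t) ^ 2 / 2 * (A * Real.cos (2 * Real.pi * N * t) ^ 2
      - B * (Real.sin (2 * Real.pi * N * t) * Real.cos (2 * Real.pi * N * t)))
      = (A / 8) * 1 + ((-(A / 8)) * Real.cos (2 * Real.pi * (1 : ℤ) * t)
        + ((A / 8) * Real.cos (2 * Real.pi * (2 * N : ℤ) * t)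
        + ((-(A / 16)) * Real.cos (2 * Real.pi * (2 * N + 1 : ℤ) * t)
        + ((-(A / 16)) * Real.cos (2 * Real.pi * (2 * N - 1 : ℤ) * t)
        + ((-(B / 8)) * Real.sin (2 * Real.pi * (2 * N : ℤ) * t)
        + ((B / 16) * Real.sin (2 * Real.pi * (2 * N + 1 : ℤ) * t)
        + (B / 16) * Real.sin (2 * Real.pi * (2 * N - 1 : ℤ) * t))))))) := by
    intro t
    obtain ⟨x, hx⟩ : ∃ x, x = Real.pi * t := ⟨_, rfl⟩
    obtain ⟨y, hy⟩ : ∃ y, y = 2 * Real.pi * N * t := ⟨_, rfl⟩
    have a1 : 2 * Real.pi * ((1 : ℤ) : ℝ) * t = 2 * x := by rw [hx]; push_cast; ring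
    have a2 : 2 * Real.pi * ((2 * N : ℤ) : ℝ) * t = 2 * y := by rw [hy]; push_cast; ring
    have a3 : 2 * Real.pi * ((2 * N + 1 : ℤ) : ℝ) * t = 2 * y + 2 * x := by
      rw [hx, hy]; push_cast; ring
    have a4 : 2 * Real.pi * ((2 * N - 1 : ℤ) : ℝ) * t = 2 * y - 2 * x := by
      rw [hx, hy]; push_cast; ring
    rw [a1, a2, a3, a4, ← hx, ← hy, Real.cos_add, Real.cos_sub, Real.sin_add, Real.sin_sub,
      Real.cos_two_mul, Real.cos_two_mul, Real.sin_two_mul, Real.sin_two_mul]
    have hs : Real.sin x ^ 2 = 1 - Real.cos x ^ 2 := by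
      have := Real.sin_sq_add_cos_sq x; linarith
    rw [hs]
    ring
  have hi : ∀ (c : ℝ) (f : ℝ → ℝ), Continuous f →
      IntervalIntegrable (fun t => c * f t) volume 0 1 := fun c f hf =>
    (continuous_const.mul hf).intervalIntegrable _ _
  have hcc : ∀ n : ℤ, Continuous (fun t : ℝ => Real.cos (2 * Real.pi * n * t)) := by
    intro n; fun_prop
  have hcs : ∀ n : ℤ, Continuous (fun t : ℝ => Real.sin (2 * Real.pi * n * t)) := by
    intro n; fun_prop
  simp_rw [e1]
  have i8 := hi (B / 16) _ (hcs (2 * N - 1 : ℤ))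
  have i7 := hi (B / 16) _ (hcs (2 * N + 1 : ℤ))
  have i6 := hi (-(B / 8)) _ (hcs (2 * N : ℤ))
  have i5 := hi (-(A / 16)) _ (hcc (2 * N - 1 : ℤ))
  have i4 := hi (-(A / 16)) _ (hcc (2 * N + 1 : ℤ))
  have i3 := hi (A / 8) _ (hcc (2 * N : ℤ))
  have i2 := hi (-(A / 8)) _ (hcc (1 : ℤ))
  have i1 := hi (A / 8) (fun _ => 1) continuous_const
  rw [intervalIntegral.integral_add i1 (i2.add (i3.add (i4.add (i5.add (i6.add (i7.add i8)))))),
    intervalIntegral.integral_add i2 (i3.add (i4.add (i5.add (i6.add (i7.add i8))))),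
    intervalIntegral.integral_add i3 (i4.add (i5.add (i6.add (i7.add i8)))),
    intervalIntegral.integral_add i4 (i5.add (i6.add (i7.add i8))),
    intervalIntegral.integral_add i5 (i6.add (i7.add i8)),
    intervalIntegral.integral_add i6 (i7.add i8),
    intervalIntegral.integral_add i7 i8]
  simp only [intervalIntegral.integral_const_mul]
  rw [mi_ic _ (by norm_num), mi_ic _ (by omega), mi_ic _ (by omega), mi_ic _ (by omega),
    mi_is _ (by omega), mi_is _ (by omega), mi_is _ (by omega)]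
  simp

theorem mi_W (κ w t : ℝ) : HasDerivAt (fun t : ℝ => Real.exp ((κ - 1) * t) * Real.cos (w * t))
    (Real.exp ((κ - 1) * t) * ((κ - 1) * Real.cos (w * t) - w * Real.sin (w * t))) t := by
  have h1 : HasDerivAt (fun t : ℝ => (κ - 1) * t) (κ - 1) t := by
    simpa using (hasDerivAt_id t).const_mul (κ - 1)
  have h2 : HasDerivAt (fun t : ℝ => w * t) w t := by
    simpa using (hasDerivAt_id t).const_mul w
  exact (h1.exp.mul h2.cos).congr_deriv (by ring)

theorem mi_W1 (κ w t : ℝ) : HasDerivAt (fun t : ℝ => Real.exp ((κ - 1) * t) *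
      ((κ - 1) * Real.cos (w * t) - w * Real.sin (w * t)))
    (Real.exp ((κ - 1) * t) * (((κ - 1) ^ 2 - w ^ 2) * Real.cos (w * t)
      - 2 * (κ - 1) * w * Real.sin (w * t))) t := by
  have h1 : HasDerivAt (fun t : ℝ => (κ - 1) * t) (κ - 1) t := by
    simpa using (hasDerivAt_id t).const_mul (κ - 1)
  have h2 : HasDerivAt (fun t : ℝ => w * t) w t := by
    simpa using (hasDerivAt_id t).const_mul w
  have h3 := h1.exp.mul ((h2.cos.const_mul (κ - 1)).sub (h2.sin.const_mul w))
  exact h3.congr_deriv (by simp only [Pi.sub_apply]; ring)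

theorem main_int (κ : ℝ) (N : ℕ) (hN : 1 ≤ N) :
    ∫ t in (0 : ℝ)..1, Real.exp (κ * t) * Real.cos (2 * Real.pi * N * t) *
      (deriv (deriv (uu κ N)) t - deriv (uu κ N) t) * Real.exp (-t)
      = (κ * (κ - 1) - (2 * Real.pi * N) ^ 2) / 8 := by
  obtain ⟨hu, hu0, hu1, hd0, hd1, -⟩ := uu_props κ N
  obtain ⟨w, hw⟩ : ∃ w, w = 2 * Real.pi * N := ⟨_, rfl⟩
  have hinf := contDiff_infty_iff_deriv.1 (hu.of_le le_top)
  have hinf2 := contDiff_infty_iff_deriv.1 hinf.2
  obtain ⟨u, huu⟩ : ∃ u, u = uu κ N := ⟨_, rfl⟩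
  rw [← huu] at hu0 hu1 hd0 hd1 hinf hinf2
  rw [← huu, ← hw]
  have hcu : Continuous u := hinf.1.continuous
  have hcu1 : Continuous (deriv u) := hinf2.1.continuous
  have hcu2 : Continuous (deriv (deriv u)) := hinf2.2.continuous
  have hF : ∀ t ∈ Set.uIcc (0:ℝ) 1, HasDerivAt (fun t : ℝ =>
      Real.exp ((κ - 1) * t) * Real.cos (w * t) * deriv u t
      - Real.exp ((κ - 1) * t) * ((κ - 1) * Real.cos (w * t) - w * Real.sin (w * t)) * u t
      - Real.exp ((κ - 1) * t) * Real.cos (w * t) * u t)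
      (Real.exp (κ * t) * Real.cos (w * t) * (deriv (deriv u) t - deriv u t) * Real.exp (-t)
        - (Real.exp ((κ - 1) * t) * ((κ * (κ - 1) - w ^ 2) * Real.cos (w * t)
          - (2 * κ - 1) * w * Real.sin (w * t))) * u t) t := by
    intro t _
    have g0 : HasDerivAt u (deriv u t) t := hinf.1.differentiableAt.hasDerivAt
    have g1 : HasDerivAt (deriv u) (deriv (deriv u) t) t := hinf2.1.differentiableAt.hasDerivAt
    have h := (((mi_W κ w t).mul g1).sub ((mi_W1 κ w t).mul g0)).sub ((mi_W κ w t).mul g0)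
    refine h.congr_deriv ?_
    have he : Real.exp (κ * t) = Real.exp ((κ - 1) * t) * Real.exp t := by
      rw [← Real.exp_add]; congr 1; ring
    have he2 : Real.exp t * Real.exp (-t) = 1 := by
      rw [← Real.exp_add, add_neg_cancel, Real.exp_zero]
    have he3 : Real.exp (κ * t) * Real.cos (w * t) * (deriv (deriv u) t - deriv u t) *
        Real.exp (-t) = Real.exp ((κ - 1) * t) * Real.cos (w * t) *
          (deriv (deriv u) t - deriv u t) := by
      rw [he]
      calc _ = Real.exp ((κ - 1) * t) * Real.cos (w * t) * (deriv (deriv u) t - deriv u t)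
            * (Real.exp t * Real.exp (-t)) := by ring
        _ = _ := by rw [he2, mul_one]
    rw [he3]
    ring
  have hI1 : IntervalIntegrable (fun t => Real.exp (κ * t) * Real.cos (w * t) *
      (deriv (deriv u) t - deriv u t) * Real.exp (-t)) volume 0 1 := by
    apply Continuous.intervalIntegrable
    fun_prop
  have hI2 : IntervalIntegrable (fun t => (Real.exp ((κ - 1) * t) *
      ((κ * (κ - 1) - w ^ 2) * Real.cos (w * t)
          - (2 * κ - 1) * w * Real.sin (w * t))) * u t) volume 0 1 := by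
    apply Continuous.intervalIntegrable
    fun_prop
  have h1 := intervalIntegral.integral_eq_sub_of_hasDerivAt hF (hI1.sub hI2)
  rw [intervalIntegral.integral_sub hI1 hI2] at h1
  simp only [hu0, hu1, hd0, hd1, mul_zero, sub_zero] at h1
  have h2 : ∫ t in (0:ℝ)..1, (Real.exp ((κ - 1) * t) * ((κ * (κ - 1) - w ^ 2) * Real.cos (w * t)
          - (2 * κ - 1) * w * Real.sin (w * t))) * u t = (κ * (κ - 1) - w ^ 2) / 8 := by
    rw [← mi_final (κ * (κ - 1) - w ^ 2) ((2 * κ - 1) * w) N hN]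
    apply intervalIntegral.integral_congr
    intro t _
    show (Real.exp ((κ - 1) * t) * ((κ * (κ - 1) - w ^ 2) * Real.cos (w * t)
          - (2 * κ - 1) * w * Real.sin (w * t))) * u t = _
    rw [huu]
    unfold uu
    rw [← hw]
    have he : Real.exp ((κ - 1) * t) * Real.exp ((1 - κ) * t) = 1 := by
      rw [← Real.exp_add]
      have : (κ - 1) * t + (1 - κ) * t = 0 := by ring
      rw [this, Real.exp_zero]
    calc _ = (Real.exp ((κ - 1) * t) * Real.exp ((1 - κ) * t)) *
          (Real.sin (Real.pi * t) ^ 2 / 2 * ((κ * (κ - 1) - w ^ 2) * Real.cos (w * t) ^ 2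
          - (2 * κ - 1) * w * (Real.sin (w * t) * Real.cos (w * t)))) := by ring
      _ = _ := by rw [he, one_mul]
  rw [h2] at h1
  linarith

end HS
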