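import Pool.Agent.Helper540.HS.Defs

open MeasureTheory ProbabilityTheory Set Filter
open scoped ENNReal NNReal Topology

namespace HS



theorem poly_side_eval {n : ℕ} (Q : Polynomial ℝ) (j : Fin n) (x : Fin n → ℝ) :
    MvPolynomial.eval x (Polynomial.aeval (MvPolynomial.X j : MvPolynomial (Fin n) ℝ) Q) =
      Q.eval (x j) := by
  rw [Polynomial.aeval_def, Polynomial.hom_eval₂, MvPolynomial.eval_X]
  have h : (MvPolynomial.eval x).comp (algebraMap ℝ (MvPolynomial (Fin n) ℝ)) =
      RingHom.id ℝ := by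
    ext
    simp
  rw [h, Polynomial.eval₂_id]

theorem poly_side_deg {n : ℕ} (Q : Polynomial ℝ) (j : Fin n) :
    (Polynomial.aeval (MvPolynomial.X j : MvPolynomial (Fin n) ℝ) Q).totalDegree ≤
      Q.natDegree := by
  rw [Polynomial.aeval_eq_sum_range]
  refine MvPolynomial.totalDegree_finsetSum_le fun k hk => ?_
  have hk' : k ≤ Q.natDegree := by
    have := Finset.mem_range.mp hk
    omega
  refine (MvPolynomial.totalDegree_smul_le _ _).trans ?_
  rw [MvPolynomial.totalDegree_X_pow]
  exact hk'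

theorem poly_side_pderiv {n : ℕ} (Q : Polynomial ℝ) (i j : Fin n) :
    MvPolynomial.pderiv i (Polynomial.aeval (MvPolynomial.X j : MvPolynomial (Fin n) ℝ) Q) =
      if j = i then Polynomial.aeval (MvPolynomial.X i : MvPolynomial (Fin n) ℝ)
        (Polynomial.derivative Q) else 0 := by
  rw [Derivation.map_aeval, MvPolynomial.pderiv_X]
  by_cases h : j = i
  · subst h
    simp
  · rw [if_neg h, Pi.single_eq_of_ne h, smul_zero]

theorem poly_side_pderiv_sum {n : ℕ} (Q : Polynomial ℝ) (i : Fin n) :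
    MvPolynomial.pderiv i
      (∑ j : Fin n, Polynomial.aeval (MvPolynomial.X j : MvPolynomial (Fin n) ℝ) Q) =
      Polynomial.aeval (MvPolynomial.X i : MvPolynomial (Fin n) ℝ)
        (Polynomial.derivative Q) := by
  rw [map_sum]
  simp only [poly_side_pderiv]
  rw [Finset.sum_ite_eq' Finset.univ i]
  simp

theorem poly_side {n : ℕ} (Q : Polynomial ℝ) :
    (∑ j : Fin n, Polynomial.aeval (MvPolynomial.X j : MvPolynomial (Fin n) ℝ) Q).totalDegree
        ≤ Q.natDegree ∧
    (∀ x : Fin n → ℝ, MvPolynomial.eval x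
      (∑ j : Fin n, Polynomial.aeval (MvPolynomial.X j : MvPolynomial (Fin n) ℝ) Q)
        = ∑ j, Q.eval (x j)) ∧
    (∀ x : Fin n → ℝ, MvPolynomial.eval x
      (ouN (∑ j : Fin n, Polynomial.aeval (MvPolynomial.X j : MvPolynomial (Fin n) ℝ) Q))
        = ∑ j, (ou1 Q).eval (x j)) := by
  refine ⟨MvPolynomial.totalDegree_finsetSum_le fun j _ => poly_side_deg Q j, ?_, ?_⟩
  · intro x
    rw [map_sum]
    exact Finset.sum_congr rfl fun j _ => poly_side_eval Q j x
  · intro x
    rw [ouN, map_sum]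
    refine Finset.sum_congr rfl fun i _ => ?_
    rw [poly_side_pderiv_sum, Derivation.map_aeval, MvPolynomial.pderiv_X_self, smul_eq_mul,
      mul_one, map_sub, map_mul, MvPolynomial.eval_X, poly_side_eval, poly_side_eval, ou1,
      Polynomial.eval_sub, Polynomial.eval_mul, Polynomial.eval_X]

end HS
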