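import Pool.Agent.Helper540.HS.Defs

open MeasureTheory ProbabilityTheory Set Filter
open scoped ENNReal NNReal Topology

namespace HS



theorem phi_props (p : ℝ) (hp1 : 0 < p) (hp2 : p ≤ 2) :
    (∀ t, 0 ≤ phi p t) ∧ (∀ t, phi p t ≤ t ^ 2) ∧ (∀ t, phi p t ≤ |t| ^ p) ∧
    (∀ t, |t| ^ p ≤ 1 + phi p t) ∧
    (∀ a b, phi p (a + b) + phi p (a - b) ≤ 2 * (phi p a + phi p b)) := by
  have hr0 : 0 ≤ p / 2 := by linarith
  have hr1 : p / 2 ≤ 1 := by linarith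
  have habs : ∀ t : ℝ, |t| ^ p = (t ^ 2) ^ (p / 2) := by
    intro t
    rw [← sq_abs, ← Real.rpow_natCast, ← Real.rpow_mul (abs_nonneg t)]
    congr 1
    push_cast; ring
  have hconc := Real.concaveOn_rpow hr0 hr1
  refine ⟨?_, ?_, ?_, ?_, ?_⟩
  · intro t
    unfold phi
    have : (1 : ℝ) ≤ (1 + t ^ 2) ^ (p / 2) := Real.one_le_rpow (by nlinarith [sq_nonneg t]) hr0
    linarith
  · intro t
    unfold phi
    have h1 := rpow_one_add_le_one_add_mul_self (show -1 ≤ t ^ 2 by nlinarith [sq_nonneg t]) hr0 hr1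
    have h2 : p / 2 * t ^ 2 ≤ 1 * t ^ 2 := mul_le_mul_of_nonneg_right hr1 (sq_nonneg t)
    linarith
  · intro t
    unfold phi
    rw [habs]
    have h1 := Real.rpow_add_le_add_rpow (zero_le_one) (sq_nonneg t) hr0 hr1
    rw [Real.one_rpow] at h1
    linarith
  · intro t
    unfold phi
    rw [habs]
    have h1 : (t ^ 2) ^ (p / 2) ≤ (1 + t ^ 2) ^ (p / 2) :=
      Real.rpow_le_rpow (sq_nonneg t) (by linarith) hr0
    linarith
  · intro a b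
    unfold phi
    have h1 := hconc.2 (show (1 + (a + b) ^ 2) ∈ Set.Ici (0:ℝ) from by
        show (0:ℝ) ≤ _; positivity) (show (1 + (a - b) ^ 2) ∈ Set.Ici (0:ℝ) from by
        show (0:ℝ) ≤ _; positivity) (show (0:ℝ) ≤ 1 / 2 by norm_num)
        (show (0:ℝ) ≤ 1 / 2 by norm_num) (by norm_num)
    simp only [smul_eq_mul] at h1
    have e1 : 1 / 2 * (1 + (a + b) ^ 2) + 1 / 2 * (1 + (a - b) ^ 2) = 1 + (a ^ 2 + b ^ 2) := by ring
    rw [e1] at h1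
    have h2 : (1 + (a ^ 2 + b ^ 2)) ^ (p / 2) + 1 ≤ (1 + a ^ 2) ^ (p / 2) + (1 + b ^ 2) ^ (p / 2) := by
      by_cases h0 : a ^ 2 + b ^ 2 = 0
      · have ha : a ^ 2 = 0 := by nlinarith [sq_nonneg a, sq_nonneg b]
        have hb : b ^ 2 = 0 := by nlinarith [sq_nonneg a, sq_nonneg b]
        rw [ha, hb]; simp
      · have hpos : 0 < a ^ 2 + b ^ 2 := lt_of_le_of_ne (by positivity) (Ne.symm h0)
        have hm1 : (1 : ℝ) ∈ Set.Ici (0:ℝ) := by show (0:ℝ) ≤ 1; norm_num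
        have hm2 : (1 + (a ^ 2 + b ^ 2)) ∈ Set.Ici (0:ℝ) := by show (0:ℝ) ≤ _; positivity
        have hs : b ^ 2 / (a ^ 2 + b ^ 2) + a ^ 2 / (a ^ 2 + b ^ 2) = 1 := by
          rw [← add_div, add_comm, div_self h0]
        have h3 := hconc.2 hm1 hm2 (show 0 ≤ b ^ 2 / (a ^ 2 + b ^ 2) by positivity)
          (show 0 ≤ a ^ 2 / (a ^ 2 + b ^ 2) by positivity) hs
        have h4 := hconc.2 hm1 hm2 (show 0 ≤ a ^ 2 / (a ^ 2 + b ^ 2) by positivity)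
          (show 0 ≤ b ^ 2 / (a ^ 2 + b ^ 2) by positivity) (by rw [add_comm]; exact hs)
        simp only [smul_eq_mul, Real.one_rpow] at h3 h4
        have e3 : b ^ 2 / (a ^ 2 + b ^ 2) * 1 + a ^ 2 / (a ^ 2 + b ^ 2) * (1 + (a ^ 2 + b ^ 2)) =
            1 + a ^ 2 := by field_simp; ring
        have e4 : a ^ 2 / (a ^ 2 + b ^ 2) * 1 + b ^ 2 / (a ^ 2 + b ^ 2) * (1 + (a ^ 2 + b ^ 2)) =
            1 + b ^ 2 := by field_simp; ring
        rw [e3] at h3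
        rw [e4] at h4
        have h5 := add_le_add h3 h4
        have e5 : b ^ 2 / (a ^ 2 + b ^ 2) * 1 +
            a ^ 2 / (a ^ 2 + b ^ 2) * (1 + (a ^ 2 + b ^ 2)) ^ (p / 2) +
            (a ^ 2 / (a ^ 2 + b ^ 2) * 1 +
            b ^ 2 / (a ^ 2 + b ^ 2) * (1 + (a ^ 2 + b ^ 2)) ^ (p / 2)) =
            (b ^ 2 / (a ^ 2 + b ^ 2) + a ^ 2 / (a ^ 2 + b ^ 2)) +
            (b ^ 2 / (a ^ 2 + b ^ 2) + a ^ 2 / (a ^ 2 + b ^ 2)) *
              (1 + (a ^ 2 + b ^ 2)) ^ (p / 2) := by ring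
        rw [e5, hs] at h5
        linarith
    linarith

end HS
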