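import Pool.Agent.Helper540.HS.Defs
import Pool.Agent.Helper540.HS.P_phi_props

open MeasureTheory ProbabilityTheory Set Filter
open scoped ENNReal NNReal Topology

namespace HS



theorem sp_meas (p : ℝ) (hp1 : 0 < p) : Measurable (fun t : ℝ => ENNReal.ofReal (phi p t)) := by
  unfold phi
  fun_prop

theorem sp_bound (p : ℝ) (hp1 : 0 < p) (hp2 : p ≤ 2) (a b : ℝ) :
    ENNReal.ofReal (phi p (b + a)) + ENNReal.ofReal (phi p (-b + a)) ≤
      2 * (ENNReal.ofReal (phi p a) + ENNReal.ofReal (phi p b)) := by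
  obtain ⟨h1, _, _, _, h5⟩ := phi_props p hp1 hp2
  have h6 := h5 a b
  have e1 : b + a = a + b := by ring
  have e2 : -b + a = a - b := by ring
  rw [e1, e2, ← ENNReal.ofReal_add (h1 _) (h1 _)]
  have e3 : (2 : ℝ≥0∞) * (ENNReal.ofReal (phi p a) + ENNReal.ofReal (phi p b)) =
      ENNReal.ofReal (2 * (phi p a + phi p b)) := by
    rw [ENNReal.ofReal_mul (by norm_num), ENNReal.ofReal_add (h1 _) (h1 _)]
    norm_num
  rw [e3]
  exact ENNReal.ofReal_le_ofReal h6

theorem sum_phi (ρ : Measure ℝ) [IsProbabilityMeasure ρ] (hρ : ρ.map (fun x => -x) = ρ)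
    (p : ℝ) (hp1 : 0 < p) (hp2 : p ≤ 2) (Q : ℝ → ℝ) (hQ : Measurable Q)
    (hodd : ∀ x, Q (-x) = - Q x) (n : ℕ) :
    ∫⁻ x : Fin n → ℝ, ENNReal.ofReal (phi p (∑ j, Q (x j))) ∂(Measure.pi (fun _ => ρ))
      ≤ n * ∫⁻ s, ENNReal.ofReal (phi p (Q s)) ∂ρ := by
  have hF := sp_meas p hp1
  induction n with
  | zero =>
    have h0 : phi p 0 = 0 := by simp [phi]
    simp [h0]
  | succ n ih =>
    have hS : Measurable (fun y : Fin n → ℝ => ∑ j, Q (y j)) := by fun_prop
    have hg : Measurable (fun z : ℝ × (Fin n → ℝ) =>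
        ENNReal.ofReal (phi p (Q z.1 + ∑ j, Q (z.2 j)))) := by
      apply hF.comp
      fun_prop
    have hmp := measurePreserving_piFinSuccAbove (fun _ : Fin (n + 1) => ρ) 0
    have h1 : ∫⁻ x : Fin (n + 1) → ℝ, ENNReal.ofReal (phi p (∑ j, Q (x j)))
        ∂(Measure.pi (fun _ => ρ)) =
        ∫⁻ z : ℝ × (Fin n → ℝ), ENNReal.ofReal (phi p (Q z.1 + ∑ j, Q (z.2 j)))
          ∂(ρ.prod (Measure.pi (fun _ => ρ))) := by
      rw [← hmp.lintegral_comp hg]
      refine lintegral_congr fun x => ?_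
      rw [Fin.sum_univ_succ]
      rfl
    rw [h1, lintegral_prod _ hg.aemeasurable]
    set h : ℝ → ℝ≥0∞ := fun t => ∫⁻ y : Fin n → ℝ,
      ENNReal.ofReal (phi p (Q t + ∑ j, Q (y j))) ∂(Measure.pi (fun _ => ρ)) with hh
    have hmeas : Measurable h := hg.lintegral_prod_right'
    have hneg : ∫⁻ t, h t ∂ρ = ∫⁻ t, h (-t) ∂ρ := by
      conv_lhs => rw [← hρ]
      rw [lintegral_map hmeas measurable_neg]
    have h2 : (2 : ℝ≥0∞) * ∫⁻ t, h t ∂ρ ≤
        2 * (∫⁻ y : Fin n → ℝ, ENNReal.ofReal (phi p (∑ j, Q (y j))) ∂(Measure.pi (fun _ => ρ)) +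
          ∫⁻ s, ENNReal.ofReal (phi p (Q s)) ∂ρ) := by
      calc (2 : ℝ≥0∞) * ∫⁻ t, h t ∂ρ = ∫⁻ t, h t ∂ρ + ∫⁻ t, h (-t) ∂ρ := by
            rw [two_mul, ← hneg]
        _ = ∫⁻ t, (h t + h (-t)) ∂ρ := by
            rw [lintegral_add_left hmeas]
        _ ≤ ∫⁻ t, 2 * (∫⁻ y : Fin n → ℝ, ENNReal.ofReal (phi p (∑ j, Q (y j)))
              ∂(Measure.pi (fun _ => ρ)) + ENNReal.ofReal (phi p (Q t))) ∂ρ := by
            refine lintegral_mono fun t => ?_
            simp only [hh]
            have hm1 : Measurable (fun y : Fin n → ℝ =>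
                ENNReal.ofReal (phi p (Q t + ∑ j, Q (y j)))) := by
              apply hF.comp
              fun_prop
            rw [← lintegral_add_left hm1]
            calc ∫⁻ y : Fin n → ℝ, (ENNReal.ofReal (phi p (Q t + ∑ j, Q (y j))) +
                  ENNReal.ofReal (phi p (Q (-t) + ∑ j, Q (y j)))) ∂(Measure.pi (fun _ => ρ))
                ≤ ∫⁻ y : Fin n → ℝ, 2 * (ENNReal.ofReal (phi p (∑ j, Q (y j))) +
                    ENNReal.ofReal (phi p (Q t))) ∂(Measure.pi (fun _ => ρ)) := by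
                  refine lintegral_mono fun y => ?_
                  simp only
                  rw [hodd t]
                  exact sp_bound p hp1 hp2 _ _
              _ = _ := by
                  rw [lintegral_const_mul, lintegral_add_right _ measurable_const, lintegral_const,
                    measure_univ, mul_one]
                  exact (hF.comp hS).add measurable_const
        _ = _ := by
            rw [lintegral_const_mul, lintegral_add_left measurable_const, lintegral_const,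
              measure_univ, mul_one]
            exact measurable_const.add (hF.comp hQ)
    have h3 : ∫⁻ t, h t ∂ρ ≤
        (∫⁻ y : Fin n → ℝ, ENNReal.ofReal (phi p (∑ j, Q (y j))) ∂(Measure.pi (fun _ => ρ)) +
          ∫⁻ s, ENNReal.ofReal (phi p (Q s)) ∂ρ) :=
      (ENNReal.mul_le_mul_iff_right (by norm_num) (by norm_num)).1 h2
    calc ∫⁻ t, h t ∂ρ ≤ _ := h3
      _ ≤ n * ∫⁻ s, ENNReal.ofReal (phi p (Q s)) ∂ρ +
          ∫⁻ s, ENNReal.ofReal (phi p (Q s)) ∂ρ := by gcongr
      _ = _ := by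
          push_cast
          ring

end HS
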