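import Pool.Agent.Helper540.HS.Defs
import Pool.Agent.Helper540.HS.P_uu_props

open MeasureTheory ProbabilityTheory Set Filter
open scoped ENNReal NNReal Topology

namespace HS



theorem window (κ a : ℝ) (N n : ℕ) (h1 : 1 / 2 ≤ κ) (h2 : κ ≤ 1) (ha : 0 < a)
    (hn : (n : ℝ) ≤ a * Real.exp (a ^ 2 / 2)) :
    Measurable (theta κ N a) ∧ (∀ s, |theta κ N a s| ≤ 1) ∧
    n * ∫ s, theta κ N a s ^ 2 ∂(gaussianReal 0 1) ≤ 1 / 2 ∧
    1 / 2 ≤ (1 - ∫ s, theta κ N a s ^ 2 ∂(gaussianReal 0 1)) ^ (n - 1) := by
  obtain ⟨hcd, -, -, -, -, hbd⟩ := uu_props κ N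
  have hmeas : Measurable (theta κ N a) := by
    unfold theta
    refine Measurable.ite ?_ ?_ measurable_const
    · exact measurableSet_Icc (a := a) (b := a + 1 / a)
    · exact (hcd.continuous.comp (by fun_prop : Continuous fun s : ℝ => a * (s - a))).measurable
  have hle1 : ∀ s, |theta κ N a s| ≤ 1 := by
    intro s
    unfold theta
    split_ifs with h
    · refine hbd h1 h2 _ ⟨mul_nonneg ha.le (by linarith [h.1]), ?_⟩
      have h3 : a * (s - a) ≤ a * (1 / a) := mul_le_mul_of_nonneg_left (by linarith [h.2]) ha.le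
      have h4 : a * (1 / a) = 1 := by field_simp
      linarith
    · simp
  set x := ∫ s, theta κ N a s ^ 2 ∂(gaussianReal 0 1) with hx
  have hx0 : 0 ≤ x := integral_nonneg (fun s => sq_nonneg _)
  set c : ℝ := (Real.sqrt (2 * Real.pi))⁻¹ * Real.exp (-(a ^ 2 / 2)) with hc
  have hsqrt : 2 ≤ Real.sqrt (2 * Real.pi) := by
    apply Real.le_sqrt_of_sq_le
    have := Real.pi_gt_three
    linarith
  have hc0 : 0 ≤ c := by positivity
  have hxle : x ≤ c * (1 / a) := by
    rw [hx, integral_gaussianReal_eq_integral_smul (by norm_num)]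
    have hind : ∫ s : ℝ, (Icc a (a + 1 / a)).indicator (fun _ => c) s = c * (1 / a) := by
      rw [integral_indicator measurableSet_Icc, setIntegral_const, smul_eq_mul]
      have : (volume : Measure ℝ).real (Icc a (a + 1 / a)) = 1 / a := by
        rw [Measure.real, Real.volume_Icc, add_sub_cancel_left, ENNReal.toReal_ofReal (by positivity)]
      rw [this]
      ring
    rw [← hind]
    refine integral_mono_of_nonneg ?_ ?_ ?_
    · refine Filter.Eventually.of_forall (fun s => ?_)
      exact mul_nonneg (gaussianPDFReal_nonneg _ _ _) (sq_nonneg _)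
    · rw [integrable_indicator_iff measurableSet_Icc]
      exact integrableOn_const (by simp)
    · refine Filter.Eventually.of_forall (fun s => ?_)
      by_cases hs : s ∈ Icc a (a + 1 / a)
      · simp only [Set.indicator_of_mem hs, smul_eq_mul]
        have h3 : gaussianPDFReal 0 1 s ≤ c := by
          rw [gaussianPDFReal, hc]
          simp only [NNReal.coe_one, mul_one, sub_zero]
          apply mul_le_mul_of_nonneg_left _ (by positivity)
          apply Real.exp_le_exp.2
          have : a ^ 2 ≤ s ^ 2 := by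
            apply pow_le_pow_left₀ ha.le hs.1
          linarith
        have h4 : theta κ N a s ^ 2 ≤ 1 := by
          rw [← sq_abs]
          have := hle1 s
          have h5 := abs_nonneg (theta κ N a s)
          nlinarith
        calc gaussianPDFReal 0 1 s * theta κ N a s ^ 2 ≤ c * 1 :=
              mul_le_mul h3 h4 (sq_nonneg _) hc0
          _ = c := mul_one c
      · have h0 : theta κ N a s = 0 := by
          unfold theta
          rw [if_neg]
          exact hs
        simp only [Set.indicator_of_notMem hs, h0, smul_eq_mul]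
        norm_num
  have hnx : n * x ≤ 1 / 2 := by
    have h3 : (n : ℝ) * x ≤ (a * Real.exp (a ^ 2 / 2)) * (c * (1 / a)) :=
      mul_le_mul hn hxle hx0 (by positivity)
    have h4 : (a * Real.exp (a ^ 2 / 2)) * (c * (1 / a)) = (Real.sqrt (2 * Real.pi))⁻¹ := by
      have e : Real.exp (a ^ 2 / 2) * Real.exp (-(a ^ 2 / 2)) = 1 := by
        rw [← Real.exp_add]
        simp
      rw [hc]
      field_simp
      linear_combination e
    have h5 : (Real.sqrt (2 * Real.pi))⁻¹ ≤ (2 : ℝ)⁻¹ := inv_anti₀ (by norm_num) hsqrt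
    rw [h4] at h3
    have : (2 : ℝ)⁻¹ = 1 / 2 := by norm_num
    linarith
  refine ⟨hmeas, hle1, hnx, ?_⟩
  rcases Nat.eq_zero_or_pos n with h0 | h0
  · subst h0
    norm_num
  · have hn1 : (1 : ℝ) ≤ n := by exact_mod_cast h0
    have hx1 : x ≤ 1 / 2 := by nlinarith
    have hb := one_add_mul_le_pow (show (-2 : ℝ) ≤ -x by linarith) (n - 1)
    have h3 : ((n - 1 : ℕ) : ℝ) ≤ n := by exact_mod_cast Nat.sub_le n 1
    have h4 : ((n - 1 : ℕ) : ℝ) * x ≤ n * x := mul_le_mul_of_nonneg_right h3 hx0
    have h5 : (1 + -x) = 1 - x := by ring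
    rw [h5] at hb
    linarith

end HS
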