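import Pool.Agent.Helper540.HS.P_upper1d
import Pool.Agent.Helper540.HS.P_uu_props
import Pool.Agent.Helper540.HS.P_sum_phi
import Pool.Agent.Helper540.HS.P_approx_cos
import Pool.Agent.Helper540.HS.P_ibp
import Pool.Agent.Helper540.HS.P_low_sum
import Pool.Agent.Helper540.HS.P_main_int
import Pool.Agent.Helper540.HS.P_poly_side
import Pool.Agent.Helper540.HS.P_QQ_props
import Pool.Agent.Helper540.HS.P_window
import Pool.Agent.Helper540.HS.P_lim1d
import Pool.Agent.Helper540.HS.P_phi_props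

open MeasureTheory ProbabilityTheory Set Filter
open scoped ENNReal NNReal Topology

namespace HS

theorem poly_integrable (P : Polynomial ℝ) : Integrable (fun s => P.eval s) (gaussianReal 0 1) := by
  have hk : ∀ k : ℕ, Integrable (fun s : ℝ => s ^ k) (gaussianReal 0 1) := by
    intro k
    have h := (memLp_id_gaussianReal (μ := 0) (v := 1) (k : ℝ≥0))
    have h2 : Integrable (fun s : ℝ => ‖s‖ ^ k) (gaussianReal 0 1) := by
      have := MemLp.integrable_norm_pow' (f := (id : ℝ → ℝ)) (p := k) (μ := gaussianReal 0 1)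
        (by simpa using h)
      simpa using this
    apply h2.mono' (by fun_prop)
    filter_upwards with s
    simp
  have : (fun s => P.eval s) = fun s => ∑ i ∈ P.support, P.coeff i * s ^ i := by
    ext s
    rw [Polynomial.eval_eq_sum, Polynomial.sum]
  rw [this]
  apply integrable_finsetSum
  intro i _
  exact (hk i).const_mul _

theorem sqrt_two_pi_le : √(2 * Real.pi) ≤ 3 := by
  rw [show (3:ℝ) = √9 by rw [show (9:ℝ) = 3^2 by norm_num]; rw [Real.sqrt_sq (by norm_num)]]
  apply Real.sqrt_le_sqrt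
  have := Real.pi_lt_d2
  linarith

/-- lower bound for the one-dimensional test integral -/
theorem low1d (κ : ℝ) (N : ℕ) (h1 : 0 < κ) (h2 : κ ≤ 1) (hN : 1 ≤ N) :
    ∃ ε : ℝ, 0 < ε ∧ ∀ H : Polynomial ℝ,
      (∀ y ∈ Icc (0:ℝ) 1, |H.eval y - Real.cos (2 * Real.pi * N * y)| ≤ ε) →
      ∀ A : ℕ → ℝ, (∀ k, A k = √((2 * k + 1) / κ)) →
      ∀ᶠ k in atTop, ∀ n : ℕ, A k * Real.exp (A k ^ 2 / 2) / 2 ≤ n →
        (A k) ^ 2 * (2 * Real.pi * N) ^ 2 / 192 ≤
          n * |∫ s, (ou1 (QQ (A k) (2 * k + 1) H)).eval s * theta κ N (A k) s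
            ∂(gaussianReal 0 1)| := by
  obtain ⟨hcd, -⟩ := uu_props κ N
  set v := deriv (uu κ N) with hv
  set w := deriv (deriv (uu κ N)) with hw
  have hvc : Continuous v := hcd.continuous_deriv (by simp)
  have hwc : Continuous w := by
    have h : ContDiff ℝ ⊤ (deriv (uu κ N)) := by
      have := (contDiff_succ_iff_deriv (n := ⊤) (f := uu κ N) (𝕜 := ℝ)).1 (by simpa using hcd)
      exact this.2.2
    exact h.continuous_deriv (by simp)
  set ω : ℝ := 2 * Real.pi * N with hω
  have hωpos : 0 < ω := by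
    have : (0:ℝ) < N := by exact_mod_cast hN
    positivity
  -- bound for w - v on [0,1]
  obtain ⟨M, hM⟩ := (isCompact_Icc (a := (0:ℝ)) (b := 1)).exists_bound_of_continuousOn
    (f := fun t => w t - v t) (hwc.sub hvc).continuousOn
  have hM0 : 0 ≤ M := le_trans (norm_nonneg _) (hM 0 (by simp))
  refine ⟨ω ^ 2 / (16 * (M + 1)), by positivity, ?_⟩
  intro H hH A hA
  have hlim := lim1d κ h1 H v w hvc hwc A hA
  have hmain := main_int κ N hN
  set Jinf := ∫ t in (0 : ℝ)..1, Real.exp (κ * t) * H.eval t * (w t - v t) * Real.exp (-t)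
    with hJinf
  have hclose : |Jinf - (κ * (κ - 1) - ω ^ 2) / 8| ≤ ω ^ 2 / 16 := by
    rw [hω, ← hmain, hJinf, ← intervalIntegral.integral_sub]
    · have : ∀ t ∈ uIoc (0:ℝ) 1, ‖Real.exp (κ * t) * H.eval t * (w t - v t) * Real.exp (-t) -
          Real.exp (κ * t) * Real.cos (2 * Real.pi * N * t) * (w t - v t) * Real.exp (-t)‖
          ≤ ω ^ 2 / 16 := by
        intro t ht
        rw [uIoc_of_le (by norm_num)] at ht
        have ht' : t ∈ Icc (0:ℝ) 1 := ⟨ht.1.le, ht.2⟩
        have e1 : Real.exp (κ * t) * H.eval t * (w t - v t) * Real.exp (-t) -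
          Real.exp (κ * t) * Real.cos (2 * Real.pi * N * t) * (w t - v t) * Real.exp (-t)
          = Real.exp (κ * t - t) * (H.eval t - Real.cos (2 * Real.pi * N * t)) * (w t - v t) := by
          rw [Real.exp_sub, Real.exp_neg]; ring
        rw [e1, norm_mul, norm_mul]
        have e2 : ‖Real.exp (κ * t - t)‖ ≤ 1 := by
          rw [Real.norm_eq_abs, abs_of_pos (Real.exp_pos _)]
          rw [Real.exp_le_one_iff]
          nlinarith [ht.1, ht.2]
        have e3 : ‖H.eval t - Real.cos (2 * Real.pi * N * t)‖ ≤ ω ^ 2 / (16 * (M + 1)) :=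
          hH t ht'
        have e4 : ‖w t - v t‖ ≤ M := hM t ht'
        calc ‖Real.exp (κ * t - t)‖ * ‖H.eval t - Real.cos (2 * Real.pi * N * t)‖ * ‖w t - v t‖
            ≤ 1 * (ω ^ 2 / (16 * (M + 1))) * M := by gcongr
          _ = ω ^ 2 / 16 * (M / (M + 1)) := by field_simp
          _ ≤ ω ^ 2 / 16 * 1 := by
            gcongr
            rw [div_le_one (by positivity)]; linarith
          _ = ω ^ 2 / 16 := by ring
      have h := intervalIntegral.norm_integral_le_of_norm_le_const this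
      simpa using h
    · apply Continuous.intervalIntegrable
      have := H.continuous
      fun_prop
    · apply Continuous.intervalIntegrable
      exact (by fun_prop : Continuous (fun t => Real.exp (κ * t) *
        Real.cos (2 * Real.pi * N * t) * (w t - v t) * Real.exp (-t)))
  have hκ0 : κ * (κ - 1) ≤ 0 := by nlinarith
  have hJbig : ω ^ 2 / 16 ≤ |Jinf| := by
    have h3 := abs_le.1 hclose
    rw [abs_of_nonpos (by nlinarith [sq_nonneg ω])]
    nlinarith [sq_nonneg ω]
  have hev : ∀ᶠ k in atTop, ω ^ 2 / 32 < |∫ t in (0 : ℝ)..1,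
      (QQ (A k) (2 * k + 1) H).eval (A k + t / A k) *
        (w t - v t - t * v t / A k ^ 2) * Real.exp (- t - t ^ 2 / (2 * A k ^ 2))| := by
    apply (hlim.abs).eventually_const_lt
    have : 0 < ω ^ 2 := by positivity
    linarith
  filter_upwards [hev] with k hk n hn
  have hApos : 0 < A k := by
    rw [hA]; apply Real.sqrt_pos.2; positivity
  rw [ibp κ (A k) N hApos]
  have e5 : ∫ t in (0 : ℝ)..1, (QQ (A k) (2 * k + 1) H).eval (A k + t / A k) *
        (A k ^ 2 * w t - (A k ^ 2 + t) * v t) *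
        Real.exp (- t - t ^ 2 / (2 * A k ^ 2)) = A k ^ 2 * ∫ t in (0 : ℝ)..1,
      (QQ (A k) (2 * k + 1) H).eval (A k + t / A k) *
        (w t - v t - t * v t / A k ^ 2) * Real.exp (- t - t ^ 2 / (2 * A k ^ 2)) := by
    rw [← intervalIntegral.integral_const_mul]
    congr 1
    ext t
    field_simp
    ring
  rw [e5]
  set J := ∫ t in (0 : ℝ)..1,
      (QQ (A k) (2 * k + 1) H).eval (A k + t / A k) *
        (w t - v t - t * v t / A k ^ 2) * Real.exp (- t - t ^ 2 / (2 * A k ^ 2)) with hJ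
  rw [abs_mul, abs_mul (A k ^ 2), abs_of_pos (by positivity : 0 < A k ^ 2),
    abs_of_pos (by positivity : 0 < (√(2 * Real.pi))⁻¹ * Real.exp (- A k ^ 2 / 2) * (A k)⁻¹)]
  have e6 : (1:ℝ)/3 ≤ (√(2 * Real.pi))⁻¹ := by
    rw [one_div]
    apply inv_anti₀ (by positivity) sqrt_two_pi_le
  have e7 : Real.exp (A k ^ 2 / 2) * Real.exp (- A k ^ 2 / 2) = 1 := by
    rw [← Real.exp_add]; simp; ring
  calc A k ^ 2 * ω ^ 2 / 192 = (A k * Real.exp (A k ^ 2 / 2) / 2) *
        ((1/3) * Real.exp (- A k ^ 2 / 2) * (A k)⁻¹ * (A k ^ 2 * (ω ^ 2 / 32))) := by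
        have : A k * (A k)⁻¹ = 1 := by field_simp
        calc A k ^ 2 * ω ^ 2 / 192 = (A k * (A k)⁻¹) *
              (Real.exp (A k ^ 2 / 2) * Real.exp (- A k ^ 2 / 2)) * (A k ^ 2 * ω ^ 2 / 192) := by
              rw [this, e7]; ring
          _ = _ := by ring
    _ ≤ n * ((√(2 * Real.pi))⁻¹ * Real.exp (- A k ^ 2 / 2) * (A k)⁻¹ * (A k ^ 2 * |J|)) := by
        gcongr

/-- the main theorem -/
theorem main (p : ℝ) (hp1 : 1 < p) (hp2 : p < 2) (c : ℝ≥0) :
    ∃ d n : ℕ, 1 ≤ d ∧ 1 ≤ n ∧ ∃ f : MvPolynomial (Fin n) ℝ, f.totalDegree ≤ d ∧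
      (c : ℝ≥0∞) * d * gnorm p f < gnorm p (ouN f) := by
  -- parameters
  set κ : ℝ := 1 / 4 + 1 / (2 * p) with hκ
  set b : ℝ := (2 - p) / 16 with hb
  have hb0 : 0 < b := by rw [hb]; linarith
  have hp0 : 0 < p := by linarith
  have hip : 1 / (2 * p) - 1 / 4 = (2 - p) / (4 * p) := by field_simp; ring
  have hip2 : (2 - p) / 8 ≤ (2 - p) / (4 * p) := by
    apply div_le_div_of_nonneg_left (by linarith) (by positivity) (by linarith)
  have hκ1 : 1 / 2 < κ := by
    have : 0 < (2 - p) / 8 := by linarith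
    rw [hκ]; linarith
  have hκ2 : κ < 1 := by
    have : 1 / (2 * p) < 1 / 2 := by
      apply one_div_lt_one_div_of_lt (by norm_num) (by linarith)
    rw [hκ]; linarith
  have hc1 : b ≤ κ - b - 1 / 2 := by rw [hκ, hb]; linarith
  have hpκ : p / 2 * κ = p / 8 + 1 / 4 := by rw [hκ]; field_simp; ring
  have hc2 : b ≤ 1 / 2 - p / 2 * (κ + b) := by
    have : p / 2 * (κ + b) = p / 8 + 1 / 4 + p / 2 * b := by rw [mul_add, hpκ]
    rw [this]
    have : p / 2 * b ≤ b := by nlinarith
    have : 2 * b = (2 - p) / 8 := by rw [hb]; ring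
    linarith
  set C2 : ℝ := 1 + 16 / b with hC2
  have hC2pos : 1 ≤ C2 := by rw [hC2]; have : 0 < 16 / b := by positivity
                             linarith
  -- choice of N
  obtain ⟨N, hN⟩ := exists_nat_gt (1 + 1000 * (c : ℝ) * C2)
  have hc0 : (0:ℝ) ≤ c := c.2
  have hN1r : (1:ℝ) < N := by nlinarith [mul_nonneg hc0 (by linarith : (0:ℝ) ≤ C2)]
  have hN1 : 1 ≤ N := by exact_mod_cast hN1r.le
  obtain ⟨ε, hε, hlow⟩ := low1d κ N (by linarith) hκ2.le hN1
  obtain ⟨H, hH⟩ := approx_cos b (min 1 (ε / Real.exp b)) (2 * Real.pi * N) hb0 (by positivity)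
  have hH1 : ∀ y ∈ Icc (0:ℝ) 1, |H.eval y - Real.cos (2 * Real.pi * N * y)| ≤ ε := by
    intro y hy
    refine (hH y).trans ?_
    have : |y| ≤ 1 := by rw [abs_of_nonneg hy.1]; exact hy.2
    calc min 1 (ε / Real.exp b) * Real.exp (b * |y|) ≤ (ε / Real.exp b) * Real.exp (b * 1) := by
          gcongr
          exact min_le_right _ _
      _ = ε := by rw [mul_one]; field_simp
  have hH2 : ∀ y : ℝ, |H.eval y| ≤ 2 * Real.exp (b * |y|) := by
    intro y
    have h3 := hH y
    have h4 : |Real.cos (2 * Real.pi * N * y)| ≤ 1 := Real.abs_cos_le_one _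
    have h5 : (1:ℝ) ≤ Real.exp (b * |y|) := Real.one_le_exp (by positivity)
    have h6 : min 1 (ε / Real.exp b) * Real.exp (b * |y|) ≤ 1 * Real.exp (b * |y|) := by
      gcongr; exact min_le_left _ _
    calc |H.eval y| = |(H.eval y - Real.cos (2 * Real.pi * N * y)) +
          Real.cos (2 * Real.pi * N * y)| := by ring_nf
      _ ≤ |H.eval y - Real.cos (2 * Real.pi * N * y)| + |Real.cos (2 * Real.pi * N * y)| :=
          abs_add_le _ _
      _ ≤ 2 * Real.exp (b * |y|) := by linarith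
  set A : ℕ → ℝ := fun k => √((2 * k + 1) / κ) with hA
  have hAinf : Tendsto A atTop atTop := by
    rw [hA]
    apply Real.tendsto_sqrt_atTop.comp
    apply Tendsto.atTop_div_const (by linarith)
    apply tendsto_atTop_add_const_right
    exact Tendsto.const_mul_atTop (by norm_num) tendsto_natCast_atTop_atTop
  have hev := hlow H hH1 A (fun k => rfl)
  obtain ⟨k, hk1, hk2, hk3⟩ := (hev.and ((hAinf.eventually_ge_atTop 2).and
    (eventually_ge_atTop H.natDegree))).exists
  set a := A k with ha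
  have ha0 : 0 < a := by linarith
  have ha2 : a ^ 2 = (2 * k + 1) / κ := by
    rw [ha, hA]; exact Real.sq_sqrt (by positivity)
  have hm : ((2 * k + 1 : ℕ) : ℝ) = κ * a ^ 2 := by
    rw [ha2]; push_cast; field_simp
  set E := a * Real.exp (a ^ 2 / 2) with hE
  have hE2 : 2 ≤ E := by
    have : (1:ℝ) ≤ Real.exp (a ^ 2 / 2) := Real.one_le_exp (by positivity)
    rw [hE]; nlinarith
  set n := ⌊E⌋₊ with hn
  have hn1 : (n:ℝ) ≤ E := Nat.floor_le (by linarith)
  have hn2 : E / 2 ≤ n := by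
    have := Nat.lt_floor_add_one E
    rw [← hn] at this
    linarith
  have hn0 : 1 ≤ n := by
    rw [hn]; apply Nat.le_floor; push_cast; linarith
  set Q := QQ a (2 * k + 1) H with hQ
  obtain ⟨hQe, hQd, hQodd⟩ := QQ_props a (2 * k + 1) H
  have hQodd' := hQodd ⟨k, by ring⟩
  obtain ⟨hf1, hf2, hf3⟩ := poly_side (n := n) Q
  set f : MvPolynomial (Fin n) ℝ :=
    ∑ j : Fin n, Polynomial.aeval (MvPolynomial.X j : MvPolynomial (Fin n) ℝ) Q with hf
  refine ⟨2 * (2 * k + 1), n, by omega, hn0, f, hf1.trans (hQd.trans (by omega)), ?_⟩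
  have hpE : ENNReal.ofReal p ≠ 0 := by simp [hp0]
  have hpE2 : ENNReal.ofReal p ≠ ⊤ := ENNReal.ofReal_ne_top
  obtain ⟨ph0, ph1, ph2, ph3, ph4⟩ := phi_props p hp0 hp2.le
  -- upper bound
  have hup : gnorm p f ≤ ENNReal.ofReal C2 := by
    rw [gnorm, eLpNorm_eq_lintegral_rpow_enorm_toReal hpE hpE2, ENNReal.toReal_ofReal hp0.le]
    have hint : ∫⁻ x : Fin n → ℝ, ‖MvPolynomial.eval x f‖ₑ ^ p ∂(gam n) ≤ ENNReal.ofReal C2 := by
      calc ∫⁻ x : Fin n → ℝ, ‖MvPolynomial.eval x f‖ₑ ^ p ∂(gam n)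
          ≤ ∫⁻ x : Fin n → ℝ, (1 + ENNReal.ofReal (phi p (∑ j, Q.eval (x j)))) ∂(gam n) := by
            apply lintegral_mono
            intro x
            dsimp only
            rw [hf2 x, ← ofReal_norm, Real.norm_eq_abs,
              ENNReal.ofReal_rpow_of_nonneg (abs_nonneg _) hp0.le]
            calc ENNReal.ofReal (|∑ j, Q.eval (x j)| ^ p)
                ≤ ENNReal.ofReal (1 + phi p (∑ j, Q.eval (x j))) :=
                  ENNReal.ofReal_le_ofReal (ph3 _)
              _ = _ := by rw [ENNReal.ofReal_add (by norm_num) (ph0 _)]; simp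
        _ = 1 + ∫⁻ x : Fin n → ℝ, ENNReal.ofReal (phi p (∑ j, Q.eval (x j))) ∂(gam n) := by
            rw [lintegral_add_left measurable_const]
            have : IsProbabilityMeasure (gam n) := by rw [gam]; infer_instance
            simp
        _ ≤ 1 + n * ∫⁻ s, ENNReal.ofReal (phi p (Q.eval s)) ∂(gaussianReal 0 1) := by
            gcongr
            rw [gam]
            apply sum_phi (gaussianReal 0 1) _ p hp0 hp2.le (fun s => Q.eval s)
              Q.continuous.measurable hQodd' n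
            have := gaussianReal_map_neg (μ := 0) (v := 1)
            simpa using this
        _ ≤ 1 + ENNReal.ofReal (16 / b) := by
            gcongr
            exact upper1d p κ b b a (2 * k + 1) n H hp1.le hp2.le hb0 hb0 hc1 hc2 ha0 hm hH2 hn1
        _ = ENNReal.ofReal C2 := by
            rw [hC2, ENNReal.ofReal_add (by norm_num) (by positivity)]; simp
    calc (∫⁻ x : Fin n → ℝ, ‖MvPolynomial.eval x f‖ₑ ^ p ∂(gam n)) ^ (1 / p)
        ≤ (ENNReal.ofReal C2) ^ (1 / p) := by gcongr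
      _ ≤ (ENNReal.ofReal C2) ^ (1 : ℝ) := by
          apply ENNReal.rpow_le_rpow_of_exponent_le
          · rw [← ENNReal.ofReal_one]; exact ENNReal.ofReal_le_ofReal hC2pos
          · rw [div_le_one hp0]; exact hp1.le
      _ = _ := by rw [ENNReal.rpow_one]
  -- lower bound
  obtain ⟨hth1, hth2, hth3, hth4⟩ := window κ a N n hκ1.le hκ2.le ha0 hn1
  have hRint : Integrable (fun s => (ou1 Q).eval s) (gaussianReal 0 1) := poly_integrable _
  have hlowsum := low_sum (gaussianReal 0 1) (fun s => (ou1 Q).eval s) (theta κ N a) hRint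
    hth1 hth2 n hn0
  have hlo : ENNReal.ofReal (a ^ 2 * (2 * Real.pi * N) ^ 2 / 384) ≤ gnorm p (ouN f) := by
    calc ENNReal.ofReal (a ^ 2 * (2 * Real.pi * N) ^ 2 / 384)
        ≤ ENNReal.ofReal (n * |∫ s, (ou1 Q).eval s * theta κ N a s ∂(gaussianReal 0 1)| *
          (1 - ∫ s, theta κ N a s ^ 2 ∂(gaussianReal 0 1)) ^ (n - 1)) := by
          apply ENNReal.ofReal_le_ofReal
          have h7 := hk1 n hn2
          calc a ^ 2 * (2 * Real.pi * N) ^ 2 / 384
              = (a ^ 2 * (2 * Real.pi * N) ^ 2 / 192) * (1 / 2) := by ring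
            _ ≤ _ := by
              apply mul_le_mul h7 hth4 (by norm_num) (by positivity)
      _ ≤ eLpNorm (fun x : Fin n → ℝ => ∑ j, (ou1 Q).eval (x j)) 1
          (Measure.pi (fun _ => gaussianReal 0 1)) := hlowsum
      _ ≤ gnorm p (ouN f) := by
          rw [gnorm]
          have e9 : (fun x : Fin n → ℝ => MvPolynomial.eval x (ouN f)) =
            fun x => ∑ j, (ou1 Q).eval (x j) := by ext x; exact hf3 x
          rw [e9]
          have : IsProbabilityMeasure (gam n) := by rw [gam]; infer_instance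
          apply eLpNorm_le_eLpNorm_of_exponent_le
          · rw [← ENNReal.ofReal_one]; exact ENNReal.ofReal_le_ofReal hp1.le
          · apply Continuous.aestronglyMeasurable
            have := (ou1 Q).continuous
            fun_prop
  refine lt_of_lt_of_le ?_ hlo
  calc (c : ℝ≥0∞) * ((2 * (2 * k + 1) : ℕ) : ℝ≥0∞) * gnorm p f
      ≤ (c : ℝ≥0∞) * ((2 * (2 * k + 1) : ℕ) : ℝ≥0∞) * ENNReal.ofReal C2 := by gcongr
    _ = ENNReal.ofReal ((c : ℝ) * ((2 * (2 * k + 1) : ℕ) : ℝ) * C2) := by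
        rw [ENNReal.ofReal_mul (by positivity), ENNReal.ofReal_mul (by positivity),
          ENNReal.ofReal_natCast, ENNReal.ofReal_coe_nnreal]
    _ < ENNReal.ofReal (a ^ 2 * (2 * Real.pi * N) ^ 2 / 384) := by
        apply (ENNReal.ofReal_lt_ofReal_iff (by positivity)).2
        have e10 : ((2 * (2 * k + 1) : ℕ) : ℝ) = 2 * (κ * a ^ 2) := by
          rw [← hm]; push_cast; ring
        rw [e10]
        have e11 : 2 * (κ * a ^ 2) ≤ 2 * a ^ 2 := by nlinarith [sq_nonneg a]
        have e12 : (3:ℝ) < Real.pi := Real.pi_gt_three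
        have e13 : (36:ℝ) * N ≤ (2 * Real.pi * N) ^ 2 := by
          have : (1:ℝ) ≤ N := hN1r.le
          have h14 : (6:ℝ) * N ≤ 2 * Real.pi * N := by nlinarith
          calc (36:ℝ) * N ≤ (6 * N) ^ 2 := by nlinarith
            _ ≤ (2 * Real.pi * N) ^ 2 := by gcongr
        have hcC : 0 ≤ (c:ℝ) * C2 := by positivity
        have ha2p : 0 < a ^ 2 := by positivity
        calc (c:ℝ) * (2 * (κ * a ^ 2)) * C2 ≤ (c:ℝ) * (2 * a ^ 2) * C2 := by gcongr
          _ = a ^ 2 * (2 * ((c:ℝ) * C2)) := by ring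
          _ < a ^ 2 * ((36 * N) / 384) := by
              apply mul_lt_mul_of_pos_left _ ha2p
              nlinarith
          _ ≤ a ^ 2 * ((2 * Real.pi * N) ^ 2 / 384) := by gcongr
          _ = _ := by ring

end HS
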