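import Pool.Agent.Helper540.HS.Defs
import Pool.Agent.Helper540.HS.P_phi_props
import Pool.Agent.Helper540.HS.P_QQ_props

open MeasureTheory ProbabilityTheory Set Filter
open scoped ENNReal NNReal Topology

namespace HS



theorem lint_abs (c : ℝ) (hc : 0 < c) :
    ∫⁻ x : ℝ, ENNReal.ofReal (Real.exp (-(c * |x|))) = ENNReal.ofReal (2 / c) := by
  rw [← lintegral_add_compl _ (measurableSet_Ioi (a := (0 : ℝ))), compl_Ioi]
  have e1 : ∫⁻ x in Ioi (0 : ℝ), ENNReal.ofReal (Real.exp (-(c * |x|))) =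
      ENNReal.ofReal (1 / c) := by
    have h1 : ∫⁻ x in Ioi (0 : ℝ), ENNReal.ofReal (Real.exp (-(c * |x|))) =
        ∫⁻ x in Ioi (0 : ℝ), ENNReal.ofReal (Real.exp (-c * x)) := by
      refine setLIntegral_congr_fun measurableSet_Ioi fun x hx => ?_
      beta_reduce
      rw [abs_of_pos hx, neg_mul]
    rw [h1, ← ofReal_integral_eq_lintegral_ofReal
      (integrableOn_exp_mul_Ioi (a := -c) (by linarith) 0)
      (Eventually.of_forall fun x => (Real.exp_pos _).le),
      integral_exp_mul_Ioi (a := -c) (by linarith) 0]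
    congr 1
    rw [mul_zero, Real.exp_zero, neg_div_neg_eq]
  have e2 : ∫⁻ x in Iic (0 : ℝ), ENNReal.ofReal (Real.exp (-(c * |x|))) =
      ENNReal.ofReal (1 / c) := by
    have h1 : ∫⁻ x in Iic (0 : ℝ), ENNReal.ofReal (Real.exp (-(c * |x|))) =
        ∫⁻ x in Iic (0 : ℝ), ENNReal.ofReal (Real.exp (c * x)) := by
      refine setLIntegral_congr_fun measurableSet_Iic fun x hx => ?_
      beta_reduce
      rw [abs_of_nonpos hx, mul_neg, neg_neg]
    rw [h1, ← ofReal_integral_eq_lintegral_ofReal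
      (integrableOn_exp_mul_Iic (a := c) hc 0)
      (Eventually.of_forall fun x => (Real.exp_pos _).le),
      integral_exp_mul_Iic (a := c) hc 0]
    congr 1
    rw [mul_zero, Real.exp_zero]
  rw [e1, e2, ← ENNReal.ofReal_add (by positivity) (by positivity)]
  congr 1
  ring

theorem pw_bound (p κ δ b a : ℝ) (m : ℕ) (H : Polynomial ℝ) (hp1 : 1 ≤ p) (hp2 : p ≤ 2)
    (hδ : 0 < δ) (hb : 0 < b) (h1 : b ≤ κ - δ - 1 / 2) (h2 : b ≤ 1 / 2 - p / 2 * (κ + δ))
    (ha : 0 < a) (hm : (m : ℝ) = κ * a ^ 2) (hH : ∀ y : ℝ, |H.eval y| ≤ 2 * Real.exp (δ * |y|))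
    (s : ℝ) : phi p ((QQ a m H).eval s) ≤
      4 * Real.exp (s ^ 2 / 2 - a ^ 2 / 2 - b * |s ^ 2 - a ^ 2|) := by
  obtain ⟨hφ0, hφ1, hφ2, -, -⟩ := phi_props p (by linarith) hp2
  have hQ := (QQ_props a m H).1 s
  have ha2 : 0 < a ^ 2 := by positivity
  have hpow : ((s / a) ^ m) ^ 2 ≤ Real.exp (κ * (s ^ 2 - a ^ 2)) := by
    have e1 : s ^ 2 / a ^ 2 ≤ Real.exp (s ^ 2 / a ^ 2 - 1) := by
      have := Real.add_one_le_exp (s ^ 2 / a ^ 2 - 1)
      linarith
    have e2 : ((s / a) ^ m) ^ 2 = (s ^ 2 / a ^ 2) ^ m := by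
      rw [← pow_mul, mul_comm, pow_mul, div_pow]
    rw [e2]
    refine le_trans (pow_le_pow_left₀ (by positivity) e1 m) ?_
    rw [← Real.exp_nat_mul, hm]
    apply le_of_eq
    congr 1
    field_simp
  have hHs := hH ((s ^ 2 - a ^ 2) / 2)
  rcases le_total (s ^ 2 - a ^ 2) 0 with hD | hD
  · -- inner region
    have e1 : |s ^ 2 - a ^ 2| = -(s ^ 2 - a ^ 2) := abs_of_nonpos hD
    have e2 : |(s ^ 2 - a ^ 2) / 2| = -(s ^ 2 - a ^ 2) / 2 := by
      rw [abs_div, e1]
      norm_num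
    rw [e2] at hHs
    rw [e1]
    have hH2 : (H.eval ((s ^ 2 - a ^ 2) / 2)) ^ 2 ≤ 4 * Real.exp (-δ * (s ^ 2 - a ^ 2)) := by
      rw [← sq_abs]
      refine le_trans (pow_le_pow_left₀ (abs_nonneg _) hHs 2) ?_
      rw [mul_pow, ← Real.exp_nat_mul]
      apply le_of_eq
      norm_num
      ring_nf
    calc phi p ((QQ a m H).eval s) ≤ ((QQ a m H).eval s) ^ 2 := hφ1 _
      _ = ((s / a) ^ m) ^ 2 * (H.eval ((s ^ 2 - a ^ 2) / 2)) ^ 2 := by rw [hQ, mul_pow]
      _ ≤ Real.exp (κ * (s ^ 2 - a ^ 2)) * (4 * Real.exp (-δ * (s ^ 2 - a ^ 2))) :=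
          mul_le_mul hpow hH2 (sq_nonneg _) (Real.exp_pos _).le
      _ = 4 * Real.exp ((κ - δ) * (s ^ 2 - a ^ 2)) := by
          rw [mul_left_comm, ← Real.exp_add]
          congr 2
          ring
      _ ≤ 4 * Real.exp (s ^ 2 / 2 - a ^ 2 / 2 - b * -(s ^ 2 - a ^ 2)) := by
          apply mul_le_mul_of_nonneg_left _ (by norm_num)
          apply Real.exp_le_exp.2
          nlinarith
  · -- outer region
    have e1 : |s ^ 2 - a ^ 2| = s ^ 2 - a ^ 2 := abs_of_nonneg hD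
    have e2 : |(s ^ 2 - a ^ 2) / 2| = (s ^ 2 - a ^ 2) / 2 := by
      rw [abs_div, e1]
      norm_num
    rw [e2] at hHs
    rw [e1]
    have hpow2 : |(s / a) ^ m| ≤ Real.exp (κ * (s ^ 2 - a ^ 2) / 2) := by
      apply abs_le_of_sq_le_sq _ (Real.exp_pos _).le
      rw [← Real.exp_nat_mul]
      refine le_trans hpow (le_of_eq ?_)
      congr 1
      push_cast
      ring
    have hQabs : |(QQ a m H).eval s| ≤ 2 * Real.exp ((κ + δ) * (s ^ 2 - a ^ 2) / 2) := by
      rw [hQ, abs_mul]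
      refine le_trans (mul_le_mul hpow2 hHs (abs_nonneg _) (Real.exp_pos _).le) (le_of_eq ?_)
      rw [mul_left_comm, ← Real.exp_add]
      congr 2
      ring
    calc phi p ((QQ a m H).eval s) ≤ |(QQ a m H).eval s| ^ p := hφ2 _
      _ ≤ (2 * Real.exp ((κ + δ) * (s ^ 2 - a ^ 2) / 2)) ^ p :=
          Real.rpow_le_rpow (abs_nonneg _) hQabs (by linarith)
      _ = 2 ^ p * Real.exp (p / 2 * (κ + δ) * (s ^ 2 - a ^ 2)) := by
          rw [Real.mul_rpow (by norm_num) (Real.exp_pos _).le, ← Real.exp_mul]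
          congr 2
          ring
      _ ≤ 4 * Real.exp (p / 2 * (κ + δ) * (s ^ 2 - a ^ 2)) := by
          apply mul_le_mul_of_nonneg_right _ (Real.exp_pos _).le
          calc (2 : ℝ) ^ p ≤ 2 ^ (2 : ℝ) := Real.rpow_le_rpow_of_exponent_le (by norm_num) hp2
            _ = 4 := by norm_num
      _ ≤ 4 * Real.exp (s ^ 2 / 2 - a ^ 2 / 2 - b * (s ^ 2 - a ^ 2)) := by
          apply mul_le_mul_of_nonneg_left _ (by norm_num)
          apply Real.exp_le_exp.2
          nlinarith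

theorem exp_split (b a s : ℝ) (hb : 0 < b) (ha : 0 < a) :
    Real.exp (-(b * |s ^ 2 - a ^ 2|)) ≤
      Real.exp (-(a * b * |s - a|)) + Real.exp (-(a * b * |s + a|)) := by
  have e1 : |s ^ 2 - a ^ 2| = |s - a| * |s + a| := by
    rw [← abs_mul]
    congr 1
    ring
  rw [e1]
  rcases le_total 0 s with hs | hs
  · have h1 : a ≤ |s + a| := le_trans (by linarith) (le_abs_self _)
    have h2 : Real.exp (-(b * (|s - a| * |s + a|))) ≤ Real.exp (-(a * b * |s - a|)) := by
      apply Real.exp_le_exp.2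
      have := mul_le_mul_of_nonneg_left h1 (mul_nonneg hb.le (abs_nonneg (s - a)))
      linarith
    linarith [Real.exp_pos (-(a * b * |s + a|))]
  · have h1 : a ≤ |s - a| := le_trans (by linarith) (neg_le_abs _)
    have h2 : Real.exp (-(b * (|s - a| * |s + a|))) ≤ Real.exp (-(a * b * |s + a|)) := by
      apply Real.exp_le_exp.2
      have := mul_le_mul_of_nonneg_left h1 (mul_nonneg hb.le (abs_nonneg (s + a)))
      linarith
    linarith [Real.exp_pos (-(a * b * |s - a|))]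

theorem upper1d (p κ δ b a : ℝ) (m n : ℕ) (H : Polynomial ℝ) (hp1 : 1 ≤ p) (hp2 : p ≤ 2)
    (hδ : 0 < δ) (hb : 0 < b) (h1 : b ≤ κ - δ - 1 / 2) (h2 : b ≤ 1 / 2 - p / 2 * (κ + δ))
    (ha : 0 < a) (hm : (m : ℝ) = κ * a ^ 2) (hH : ∀ y : ℝ, |H.eval y| ≤ 2 * Real.exp (δ * |y|))
    (hn : (n : ℝ) ≤ a * Real.exp (a ^ 2 / 2)) :
    (n : ℝ≥0∞) * ∫⁻ s, ENNReal.ofReal (phi p ((QQ a m H).eval s)) ∂(gaussianReal 0 1)
      ≤ ENNReal.ofReal (16 / b) := by
  have hphi : Measurable fun s : ℝ => phi p ((QQ a m H).eval s) := by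
    unfold phi
    exact ((measurable_const.add ((QQ a m H).continuous.measurable.pow_const 2)).pow_const
      (p / 2)).sub_const 1
  have hab : 0 < a * b := mul_pos ha hb
  have e1 : ∫⁻ s, ENNReal.ofReal (phi p ((QQ a m H).eval s)) ∂(gaussianReal 0 1) =
      ∫⁻ s, gaussianPDF 0 1 s * ENNReal.ofReal (phi p ((QQ a m H).eval s)) := by
    rw [gaussianReal_of_var_ne_zero 0 one_ne_zero,
      lintegral_withDensity_eq_lintegral_mul _ (measurable_gaussianPDF 0 1) hphi.ennreal_ofReal]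
    rfl
  have e2 : ∀ s, gaussianPDF 0 1 s * ENNReal.ofReal (phi p ((QQ a m H).eval s)) ≤
      ENNReal.ofReal (4 * Real.exp (-(a ^ 2 / 2))) *
        (ENNReal.ofReal (Real.exp (-(a * b * |s - a|))) +
          ENNReal.ofReal (Real.exp (-(a * b * |s + a|)))) := by
    intro s
    rw [← ENNReal.ofReal_add (Real.exp_pos _).le (Real.exp_pos _).le,
      ← ENNReal.ofReal_mul (by positivity), gaussianPDF,
      ← ENNReal.ofReal_mul (gaussianPDFReal_nonneg 0 1 s)]
    apply ENNReal.ofReal_le_ofReal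
    have h3 : gaussianPDFReal 0 1 s ≤ Real.exp (-(s ^ 2 / 2)) := by
      rw [gaussianPDFReal]
      have h4 : (√(2 * Real.pi * ((1 : ℝ≥0) : ℝ)))⁻¹ ≤ 1 := by
        apply inv_le_one_of_one_le₀
        rw [Real.one_le_sqrt]
        have := Real.pi_gt_three
        rw [NNReal.coe_one]
        linarith
      refine le_trans (mul_le_of_le_one_left (Real.exp_pos _).le h4) (le_of_eq ?_)
      congr 1
      rw [NNReal.coe_one]
      ring
    have h5 := pw_bound p κ δ b a m H hp1 hp2 hδ hb h1 h2 ha hm hH s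
    have h6 := exp_split b a s hb ha
    obtain ⟨hφ0, -⟩ := phi_props p (by linarith) hp2
    calc gaussianPDFReal 0 1 s * phi p ((QQ a m H).eval s) ≤
        Real.exp (-(s ^ 2 / 2)) * (4 * Real.exp (s ^ 2 / 2 - a ^ 2 / 2 - b * |s ^ 2 - a ^ 2|)) :=
          mul_le_mul h3 h5 (hφ0 _) (Real.exp_pos _).le
      _ = 4 * Real.exp (-(a ^ 2 / 2)) * Real.exp (-(b * |s ^ 2 - a ^ 2|)) := by
          rw [mul_left_comm, ← Real.exp_add, mul_assoc, ← Real.exp_add]
          congr 2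
          ring
      _ ≤ _ := mul_le_mul_of_nonneg_left h6 (by positivity)
  have e3 : ∫⁻ s, gaussianPDF 0 1 s * ENNReal.ofReal (phi p ((QQ a m H).eval s)) ≤
      ENNReal.ofReal (4 * Real.exp (-(a ^ 2 / 2))) *
        (ENNReal.ofReal (2 / (a * b)) + ENNReal.ofReal (2 / (a * b))) := by
    refine le_trans (lintegral_mono e2) ?_
    have m1 : Measurable fun s : ℝ => ENNReal.ofReal (Real.exp (-(a * b * |s - a|))) := by
      fun_prop
    have m2 : Measurable fun s : ℝ => ENNReal.ofReal (Real.exp (-(a * b * |s + a|))) := by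
      fun_prop
    have m3 : Measurable fun s : ℝ => ENNReal.ofReal (Real.exp (-(a * b * |s - a|))) +
        ENNReal.ofReal (Real.exp (-(a * b * |s + a|))) := m1.add m2
    rw [lintegral_const_mul _ m3, lintegral_add_left m1,
      lintegral_sub_right_eq_self (fun s : ℝ => ENNReal.ofReal (Real.exp (-(a * b * |s|)))) a,
      lintegral_add_right_eq_self (fun s : ℝ => ENNReal.ofReal (Real.exp (-(a * b * |s|)))) a,
      lint_abs _ hab]
  rw [e1, ← ENNReal.ofReal_natCast]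
  refine le_trans (mul_le_mul' (ENNReal.ofReal_le_ofReal hn) e3) ?_
  rw [← ENNReal.ofReal_add (by positivity) (by positivity),
    ← ENNReal.ofReal_mul (by positivity), ← ENNReal.ofReal_mul (by positivity)]
  apply ENNReal.ofReal_le_ofReal
  apply le_of_eq
  have h7 : Real.exp (a ^ 2 / 2) * Real.exp (-(a ^ 2 / 2)) = 1 := by
    rw [← Real.exp_add, add_neg_cancel, Real.exp_zero]
  calc a * Real.exp (a ^ 2 / 2) * (4 * Real.exp (-(a ^ 2 / 2)) * (2 / (a * b) + 2 / (a * b))) =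
      (Real.exp (a ^ 2 / 2) * Real.exp (-(a ^ 2 / 2))) * (4 * a * (2 / (a * b) + 2 / (a * b))) := by
        ring
    _ = 16 / b := by
        rw [h7]
        field_simp
        norm_num

end HS
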